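import Pool.Agent.Helper67.Supp.Ker

/-!
# Chains of countable sets of pairs
-/

set_option autoImplicit false

open Set Cardinal Pool.Agent.Helper50.Supp

noncomputable section

namespace Pool.Agent.Helper67.Supp

universe u

variable {X K : Type u} [NormedAddCommGroup X] [NormedSpace ℝ X] [TopologicalSpace K]
  [CompactSpace K]

theorem uncountable_W : ¬ (univ : Set W.{u}).Countable := by
  intro h
  have h1 : #(univ : Set W.{u}) ≤ ℵ₀ := mk_le_aleph0_iff.mpr h.to_subtype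
  rw [mk_univ, mk_toType, card_ord] at h1
  exact absurd h1 (not_le.mpr aleph0_lt_aleph_one)

/-- Final step: an uncountable triangular system of pairs gives a support set. -/
theorem finish (T : X →L[ℝ] C(K, ℝ)) (A : Set W.{u}) (hA : ¬ A.Countable) (p : W.{u} → K × K)
    (y : W.{u} → X) (h0 : ∀ i ∈ A, ∀ j ∈ A, i < j → T (y i) (p j).1 = T (y i) (p j).2)
    (h1 : ∀ i ∈ A, ∀ j ∈ A, j ≤ i → T (y i) (p j).2 < T (y i) (p j).1) : HasSupportSet X := by
  have hup : ∀ i : W.{u}, ∃ j ∈ A, i < j := by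
    intro i
    by_contra hcon
    push Not at hcon
    exact hA ((countable_iic i).mono fun j hj => hcon j hj)
  have hne : A.Nonempty := by
    by_contra h
    rw [not_nonempty_iff_eq_empty] at h
    exact hA (h ▸ countable_empty)
  have : Nonempty A := hne.to_subtype
  let ev : K → X →L[ℝ] ℝ := fun k => (ContinuousMap.evalCLM ℝ k).comp T
  have hev : ∀ k x, ev k x = T x k := fun k x => rfl
  refine hasSupportSet_of_semi (J := A) (fun i => ?_) (fun s hs => ?_) (fun i => y i)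
    (fun i => ev (p i).1 - ev (p i).2) (fun i j hij => ?_) (fun i j => ?_) (fun i => ?_)
  · obtain ⟨j, hj, hij⟩ := hup i
    exact ⟨⟨j, hj⟩, hij⟩
  · obtain ⟨j, hj⟩ := omega1_bdd (Subtype.val '' s) (hs.image _)
    obtain ⟨j', hj', hjj'⟩ := hup j
    exact ⟨⟨j', hj'⟩, fun i hi => ((hj i ⟨i, hi, rfl⟩).trans hjj').le⟩
  · rw [sub_apply, hev, hev, h0 i i.2 j j.2 hij, sub_self]
  · rw [sub_apply, hev, hev]
    rcases lt_or_ge (i : W.{u}) (j : W.{u}) with h | h
    · rw [h0 i i.2 j j.2 h, sub_self]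
    · exact (sub_pos.mpr (h1 i i.2 j j.2 h)).le
  · rw [sub_apply, hev, hev]
    exact sub_pos.mpr (h1 i i.2 i i.2 le_rfl)

theorem exists_kernel_pos (T : X →L[ℝ] C(K, ℝ)) {κ : Cardinal.{u}} (hκ : ℵ₁ ≤ κ) (E : Set X)
    (hE : ∀ D : Set C(K, ℝ), #D ≤ κ → ∃ x ∈ E, T x ∉ closure D)
    (hX : ¬ HasSupportSet X) (Y : Set X) (hY : #Y ≤ κ) :
    ∃ F : ℕ → K × K, (∀ y ∈ Y, ∀ n, T y (F n).1 = T y (F n).2) ∧
      ∃ D : Set C(K, ℝ), #D ≤ κ ∧
        ∀ x ∈ E, T x ∉ closure D → ∃ n, T x (F n).2 < T x (F n).1 := by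
  obtain ⟨F, h1, D, hD, h2⟩ := exists_kernel T hκ E hE hX Y hY
  refine ⟨fun n => if n % 2 = 0 then F (n / 2) else (F (n / 2)).swap, fun y hy n => ?_, D, hD,
    fun x hxE hx => ?_⟩
  · dsimp only
    split_ifs with h
    · exact h1 y hy _
    · exact (h1 y hy _).symm
  · have h3 : ∃ n, T x (F n).1 ≠ T x (F n).2 := by
      by_contra hcon
      push Not at hcon
      exact hx (h2 x hxE hcon)
    obtain ⟨n, hn⟩ := h3
    rcases lt_or_gt_of_ne hn with h | h
    · refine ⟨2 * n + 1, ?_⟩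
      have e1 : ¬ (2 * n + 1) % 2 = 0 := by omega
      have e2 : (2 * n + 1) / 2 = n := by omega
      dsimp only
      rw [if_neg e1, e2]
      exact h
    · refine ⟨2 * n, ?_⟩
      have e1 : (2 * n) % 2 = 0 := by omega
      have e2 : (2 * n) / 2 = n := by omega
      dsimp only
      rw [if_pos e1, e2]
      exact h

theorem exists_enum {κ : Cardinal.{u}} (s : Set X) (hs : #s ≤ κ) :
    ∃ D : κ.ord.ToType → X, s ⊆ range D := by
  classical
  have h1 : #s ≤ #κ.ord.ToType := by rwa [mk_toType, card_ord]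
  obtain ⟨e⟩ := h1
  refine ⟨fun a => if h : ∃ x : s, e x = a then (h.choose : X) else 0, fun x hx => ?_⟩
  refine ⟨e ⟨x, hx⟩, ?_⟩
  have h2 : ∃ z : s, e z = e ⟨x, hx⟩ := ⟨⟨x, hx⟩, rfl⟩
  have h3 : h2.choose = ⟨x, hx⟩ := e.injective h2.choose_spec
  dsimp only
  rw [dif_pos h2, h3]

/-- The chain. -/
theorem exists_chain (T : X →L[ℝ] C(K, ℝ)) {κ : Cardinal.{u}} (hκ : ℵ₁ ≤ κ) (E : Set X)
    (hE : ∀ D : Set C(K, ℝ), #D ≤ κ → ∃ x ∈ E, T x ∉ closure D)
    (hX : ¬ HasSupportSet X) (Y : Set X) (hY : #Y ≤ κ)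
    (Q : (i : W.{u}) → (∀ j, j ≤ i → ℕ → K × K) → (κ.ord.ToType → X) → Prop)
    (hQ : ∀ i F, (∀ y ∈ Y, ∀ j hj n, T y (F j hj n).1 = T y (F j hj n).2) → ∃ D, Q i F D) :
    ∃ (F : W.{u} → ℕ → K × K) (D : W.{u} → κ.ord.ToType → X) (d : X), d ∈ E ∧
      (∀ j i, j < i → ∀ a n, T (D j a) (F i n).1 = T (D j a) (F i n).2) ∧
      (∀ i, Q i (fun j _ => F j) (D i)) ∧ ∀ i, ∃ n, T d (F i n).2 < T d (F i n).1 := by
  have hκ0 : ℵ₀ ≤ κ := (aleph0_le_aleph 1).trans hκ
  obtain ⟨G, hG⟩ := exists_rec (I := W.{u})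
    (α := {F : ℕ → K × K // ∀ y ∈ Y, ∀ n, T y (F n).1 = T y (F n).2} × (κ.ord.ToType → X))
    (P := fun i g p => (∀ j (hj : j < i), ∀ a n,
        T ((g j hj).2 a) (p.1.1 n).1 = T ((g j hj).2 a) (p.1.1 n).2) ∧
      (∃ D : Set C(K, ℝ), #D ≤ κ ∧ ∀ x ∈ E, T x ∉ closure D →
        ∃ n, T x (p.1.1 n).2 < T x (p.1.1 n).1) ∧
      Q i (fun j _ => if h : j < i then (g j h).1.1 else p.1.1) p.2) (by
    intro i g
    obtain ⟨F, hF1, hF2⟩ := exists_kernel_pos T hκ E hE hX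
      (Y ∪ range fun q : Iio i × κ.ord.ToType => (g q.1.1 q.1.2).2 q.2) (by
        refine (mk_union_le _ _).trans (add_le_of_le hκ0 hY (mk_range_le.trans ?_))
        rw [mk_prod, lift_id, lift_id, mk_toType, card_ord]
        exact mul_le_of_le hκ0
          ((mk_le_aleph0_iff.mpr (countable_iio i).to_subtype).trans hκ0) le_rfl)
    obtain ⟨D, hD⟩ := hQ i (fun j _ => if h : j < i then (g j h).1.1 else F) (by
      intro y hy j hj n
      by_cases h : j < i
      · simp only [h, dite_true]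
        exact (g j h).1.2 y hy n
      · simp only [h, dite_false]
        exact hF1 y (Or.inl hy) n)
    exact ⟨(⟨F, fun y hy => hF1 y (Or.inl hy)⟩, D),
      fun j hj a n => hF1 _ (Or.inr ⟨(⟨j, hj⟩, a), rfl⟩) n, hF2, hD⟩)
  choose hG1 hG2 hG3 using hG
  choose D hD1 hD2 using hG2
  obtain ⟨d, hdE, hd⟩ := hE (⋃ i, D i) (by
    refine (mk_iUnion_le_sum_mk).trans ((sum_le_sum _ _ hD1).trans ?_)
    rw [sum_const, lift_id, lift_id, mk_toType, card_ord]
    exact mul_le_of_le hκ0 hκ le_rfl)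
  refine ⟨fun i => (G i).1.1, fun i => (G i).2, d, hdE, fun j i hj a n => hG1 i j hj a n,
    fun i => ?_, fun i => hD2 i d hdE fun h => hd (closure_mono (subset_iUnion D i) h)⟩
  have h := hG3 i
  convert h using 1
  funext j hj
  by_cases h' : j < i
  · simp only [h', dite_true]
  · simp only [h', dite_false]
    rw [le_antisymm hj (not_lt.mp h')]

end Pool.Agent.Helper67.Supp
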