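import Pool.Agent.Helper67.Supp.Chain
import Pool.Agent.Helper50.SupportPli

/-!
# The greedy construction of semibiorthogonal systems
-/

set_option autoImplicit false

open Set Cardinal Pool.Agent.Helper50.Supp

noncomputable section

namespace Pool.Agent.Helper67.Supp

universe u

variable {X : Type u} [NormedAddCommGroup X] [NormedSpace ℝ X]

/-- Hahn-Banach for a closed subspace. -/
theorem exists_functional (A : Set X) (x : X)
    (hx : x ∉ closure (Submodule.span ℝ A : Set X)) :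
    ∃ f : X →L[ℝ] ℝ, (∀ a ∈ A, f a = 0) ∧ 0 < f x := by
  let S : Submodule ℝ X := (Submodule.span ℝ A).topologicalClosure
  have hS : IsClosed (S : Set X) := (Submodule.span ℝ A).isClosed_topologicalClosure
  have hS' : (S : Set X) = closure (Submodule.span ℝ A : Set X) :=
    Submodule.topologicalClosure_coe _
  have hxS : x ∉ S := fun h => hx (hS' ▸ h)
  have : IsClosed (S : Set X) := hS
  obtain ⟨f, c, hf1, hf2⟩ := geometric_hahn_banach_closed_point (s := (S : Set X))
    S.convex hS hxS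
  have h0 : 0 < c := by
    have h := hf1 0 S.zero_mem
    rwa [map_zero] at h
  have hz : ∀ a ∈ S, f a = 0 := by
    intro a ha
    by_contra hne
    have h1 := hf1 ((c / f a) • a) (S.smul_mem _ ha)
    rw [map_smul, smul_eq_mul, div_mul_cancel₀ _ hne] at h1
    exact lt_irrefl _ h1
  refine ⟨f, fun a ha => hz a ?_, h0.trans hf2⟩
  exact (Submodule.le_topologicalClosure _) (Submodule.subset_span ha)

/-- A point with positive values at all functionals of a countable system. -/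
theorem exists_positive_point [CompleteSpace X] {J : Type u} [Countable J] [Nonempty J]
    (y : J → X) (f : J → X →L[ℝ] ℝ) (h1 : ∀ j k, 0 ≤ f j (y k)) (h2 : ∀ j, 0 < f j (y j))
    (Q : Set X) (hQ : IsClosed Q) (hQ0 : (0 : X) ∈ Q) (hQ1 : ∀ a ∈ Q, ∀ b ∈ Q, a + b ∈ Q)
    (hQ2 : ∀ c : ℝ, 0 ≤ c → ∀ a ∈ Q, c • a ∈ Q) (hy : ∀ j, y j ∈ Q) :
    ∃ z ∈ Q, (∀ j, 0 < f j z) := by
  obtain ⟨e, he⟩ := exists_surjective_nat J
  let c : ℕ → ℝ := fun n => (1 / 2) ^ n * (1 + ‖y (e n)‖)⁻¹
  have hc : ∀ n, 0 < c n := fun n => by positivity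
  have hsum : Summable fun n => c n • y (e n) := by
    refine Summable.of_norm_bounded (g := fun n : ℕ => (1 / 2 : ℝ) ^ n)
      (summable_geometric_of_lt_one (by norm_num) (by norm_num)) fun n => ?_
    rw [norm_smul, Real.norm_of_nonneg (hc n).le, mul_assoc]
    have h3 : (1 + ‖y (e n)‖)⁻¹ * ‖y (e n)‖ ≤ 1 := by
      rw [inv_mul_le_iff₀ (by positivity), mul_one]
      linarith
    exact mul_le_of_le_one_right (by positivity) h3
  refine ⟨∑' n, c n • y (e n), ?_, fun j => ?_⟩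
  · refine hQ.mem_of_tendsto hsum.hasSum.tendsto_sum_nat (Filter.Eventually.of_forall fun n => ?_)
    induction n with
    | zero => simpa using hQ0
    | succ n ih =>
      rw [Finset.sum_range_succ]
      exact hQ1 _ ih _ (hQ2 _ (hc n).le _ (hy _))
  · obtain ⟨n, rfl⟩ := he j
    rw [(f (e n)).map_tsum hsum]
    have h4 : ∀ k, 0 ≤ f (e n) (c k • y (e k)) := fun k => by
      rw [map_smul, smul_eq_mul]
      exact mul_nonneg (hc k).le (h1 _ _)
    refine Summable.tsum_pos (hsum.map (f (e n)) (f (e n)).continuous) h4 n ?_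
    rw [map_smul, smul_eq_mul]
    exact mul_pos (hc n) (h2 _)

/-- The closed convex cone generated by a set. -/
def ccone (E : Set X) : Set X := closure (Submodule.span NNReal E : Set X)

theorem subset_ccone (E : Set X) : E ⊆ ccone E := fun _ hx =>
  subset_closure (Submodule.subset_span hx)

theorem zero_mem_ccone (E : Set X) : (0 : X) ∈ ccone E :=
  subset_closure (Submodule.zero_mem _)

theorem add_mem_ccone (E : Set X) : ∀ a ∈ ccone E, ∀ b ∈ ccone E, a + b ∈ ccone E :=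
  fun _ ha _ hb => (Submodule.span NNReal E).toAddSubmonoid.topologicalClosure.add_mem ha hb

theorem smul_mem_ccone (E : Set X) : ∀ c : ℝ, 0 ≤ c → ∀ a ∈ ccone E, c • a ∈ ccone E := by
  intro c hc a ha
  refine map_mem_closure (continuous_const_smul c) ha fun x hx => ?_
  have h1 : c • x = (⟨c, hc⟩ : NNReal) • x := rfl
  rw [h1]
  exact (Submodule.span NNReal E).smul_mem _ hx

/-- If every part of `E` cut out by countably many inequalities is large, there is a support
set. -/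
theorem hasSupportSet_of_cone [CompleteSpace X] {κ : Cardinal.{u}} (hκ : ℵ₀ ≤ κ)
    (E : Set X) (hEd : ∀ s : Set X, E ⊆ closure s → κ < #s) (Y : Set X) (hY : #Y ≤ κ)
    (h : ∀ (g : ℕ → X →L[ℝ] ℝ) (z : X), z ∈ ccone E → (∀ n, ∀ y ∈ Y, g n y = 0) →
      (∀ n, g n z = 1) →
      ∀ s : Set X, {x | x ∈ E ∧ ∀ n, 0 ≤ g n x} ⊆ closure s → κ < #s) : HasSupportSet X := by
  classical
  let Gd : (i : W.{u}) → (∀ j, j < i → X × (X →L[ℝ] ℝ)) → Prop := fun i g =>
    (∀ j (hj : j < i), (g j hj).1 ∈ E ∧ (∀ y ∈ Y, (g j hj).2 y = 0) ∧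
      0 < (g j hj).2 (g j hj).1) ∧
    (∀ j (hj : j < i) k (hk : k < i), 0 ≤ (g j hj).2 (g k hk).1) ∧
    ∀ j (hj : j < i) k (hk : k < i), k < j → (g j hj).2 (g k hk).1 = 0
  obtain ⟨G, hG⟩ := exists_rec (I := W.{u}) (α := X × (X →L[ℝ] ℝ))
    (P := fun i g p => Gd i g → p.1 ∈ E ∧ (∀ y ∈ Y, p.2 y = 0) ∧ 0 < p.2 p.1 ∧
      (∀ j (hj : j < i), p.2 (g j hj).1 = 0) ∧ ∀ j (hj : j < i), 0 ≤ (g j hj).2 p.1) (by
    intro i g
    by_cases hgd : Gd i g
    swap
    · exact ⟨0, fun h => absurd h hgd⟩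
    have hci : Countable (Iio i) := (countable_iio i).to_subtype
    let A : Set X := Y ∪ range fun j : Iio i => (g j.1 j.2).1
    have hA : #A < Order.succ κ := by
      refine Order.lt_succ_iff.mpr ((mk_union_le _ _).trans (add_le_of_le hκ hY ?_))
      exact mk_range_le.trans ((mk_le_aleph0_iff.mpr hci).trans hκ)
    have hB : #(ratComb A) ≤ κ :=
      Order.lt_succ_iff.mp (mk_ratComb (hκ.trans_lt (Order.lt_succ κ)) hA)
    have hspan : closure (Submodule.span ℝ A : Set X) ⊆ closure (ratComb A) := by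
      refine closure_minimal (span_subset_closure_ratComb A) isClosed_closure
    have hx : ∃ x ∈ E, (∀ j (hj : j < i), 0 ≤ (g j hj).2 x) ∧ x ∉ closure (ratComb A) := by
      rcases isEmpty_or_nonempty (Iio i) with he | hne
      · by_contra hcon
        push Not at hcon
        refine absurd (hEd (ratComb A) fun x hx => hcon x hx fun j hj => ?_) (not_lt.mpr hB)
        exact (he.false ⟨j, hj⟩).elim
      · obtain ⟨z, hzQ, hz⟩ := exists_positive_point (fun j : Iio i => (g j.1 j.2).1)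
          (fun j => (g j.1 j.2).2) (fun j k => hgd.2.1 _ j.2 _ k.2)
          (fun j => (hgd.1 _ j.2).2.2) (ccone E) isClosed_closure (zero_mem_ccone E)
          (add_mem_ccone E) (smul_mem_ccone E) (fun j => subset_ccone E (hgd.1 _ j.2).1)
        obtain ⟨e, he⟩ := exists_surjective_nat (Iio i)
        by_contra hcon
        push Not at hcon
        refine absurd (h (fun n => ((g (e n).1 (e n).2).2 z)⁻¹ • (g (e n).1 (e n).2).2) z hzQ
          (fun n y hy => ?_) (fun n => ?_) (ratComb A) ?_) (not_lt.mpr hB)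
        · rw [smul_apply, (hgd.1 _ (e n).2).2.1 y hy, smul_zero]
        · rw [smul_apply, smul_eq_mul]
          exact inv_mul_cancel₀ (hz (e n)).ne'
        · rintro x ⟨hxQ, hx⟩
          refine hcon x hxQ fun j hj => ?_
          obtain ⟨n, hn⟩ := he ⟨j, hj⟩
          have h5 := hx n
          rw [smul_apply, smul_eq_mul] at h5
          have h6 := (mul_nonneg_iff_of_pos_left (inv_pos.mpr (hz (e n)))).mp h5
          rw [hn] at h6
          exact h6
    obtain ⟨x, hxQ, hx1, hx2⟩ := hx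
    obtain ⟨f, hf1, hf2⟩ := exists_functional A x fun h => hx2 (hspan h)
    exact ⟨(x, f), fun _ => ⟨hxQ, fun y hy => hf1 y (Or.inl hy), hf2,
      fun j hj => hf1 _ (Or.inr ⟨⟨j, hj⟩, rfl⟩), hx1⟩⟩)
  have hall : ∀ i, Gd i fun j _ => G j := by
    intro i
    induction i using WellFoundedLT.induction with
    | ind i ih =>
      have h1 : ∀ j < i, (G j).1 ∈ E ∧ (∀ y ∈ Y, (G j).2 y = 0) ∧ 0 < (G j).2 (G j).1 ∧
          (∀ k < j, (G j).2 (G k).1 = 0) ∧ ∀ k < j, 0 ≤ (G k).2 (G j).1 := fun j hj =>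
        hG j (ih j hj)
      refine ⟨fun j hj => ⟨(h1 j hj).1, (h1 j hj).2.1, (h1 j hj).2.2.1⟩, fun j hj k hk => ?_,
        fun j hj k hk hkj => (h1 j hj).2.2.2.1 k hkj⟩
      rcases lt_trichotomy j k with hjk | rfl | hjk
      · exact (h1 k hk).2.2.2.2 j hjk
      · exact (h1 j hj).2.2.1.le
      · exact ((h1 j hj).2.2.2.1 k hjk).ge
  have h1 := fun i => hG i (hall i)
  refine hasSupportSet_of_omega1 (fun i => (G i).1) (fun i => (G i).2) (fun i j hij => ?_)
    (fun i j => ?_) (fun i => (h1 i).2.2.1)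
  · exact (h1 j).2.2.2.1 i hij
  · rcases lt_trichotomy i j with hij | rfl | hij
    · exact ((h1 j).2.2.2.1 i hij).ge
    · exact (h1 i).2.2.1.le
    · exact (h1 i).2.2.2.2 j hij

/-- The σ-ideal criterion. -/
theorem hasSupportSet_of_ideal {Ω : Type u} (x : Ω → X) (I : Set (Set Ω))
    (hI : ∀ A : ℕ → Set Ω, (∀ n, A n ∈ I) → ∀ B ⊆ ⋃ n, A n, B ∈ I)
    (h : ∀ Y : Set X, Y.Countable → ∃ f : X →L[ℝ] ℝ, (∀ y ∈ Y, f y = 0) ∧
      {ω | f (x ω) < 0} ∈ I ∧ {ω | 0 < f (x ω)} ∉ I) : HasSupportSet X := by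
  have hempty : ∃ A, A ∈ I := by
    obtain ⟨f, -, hf, -⟩ := h ∅ countable_empty
    exact ⟨_, hf⟩
  obtain ⟨A₀, hA₀⟩ := hempty
  obtain ⟨G, hG⟩ := exists_rec (I := W.{u})
    (α := Ω × {f : X →L[ℝ] ℝ // {ω | f (x ω) < 0} ∈ I})
    (P := fun i g p => 0 < p.2.1 (x p.1) ∧
      (∀ j (hj : j < i), p.2.1 (x (g j hj).1) = 0) ∧
      ∀ j (hj : j < i), 0 ≤ (g j hj).2.1 (x p.1)) (by
    intro i g
    have hci : Countable (Iio i) := (countable_iio i).to_subtype
    obtain ⟨f, hf1, hf2, hf3⟩ := h (range fun j : Iio i => x (g j.1 j.2).1) (countable_range _)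
    have h1 : ∃ ω, 0 < f (x ω) ∧ ∀ j (hj : j < i), 0 ≤ (g j hj).2.1 (x ω) := by
      by_contra hcon
      push Not at hcon
      have : Countable (Option (Iio i)) := inferInstance
      obtain ⟨e, he⟩ := exists_surjective_nat (Option (Iio i))
      let S : Option (Iio i) → Set Ω := fun o =>
        o.elim A₀ fun j => {ω | (g j.1 j.2).2.1 (x ω) < 0}
      have hS : ∀ o, S o ∈ I := by
        rintro (_ | j)
        · exact hA₀
        · exact (g j.1 j.2).2.2
      refine hf3 (hI (fun n => S (e n)) (fun n => hS _) _ fun ω hω => ?_)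
      obtain ⟨j, hj, hlt⟩ := hcon ω hω
      obtain ⟨n, hn⟩ := he (some ⟨j, hj⟩)
      refine mem_iUnion.mpr ⟨n, ?_⟩
      rw [hn]
      exact hlt
    obtain ⟨ω, hω1, hω2⟩ := h1
    exact ⟨(ω, ⟨f, hf2⟩), hω1, fun j hj => hf1 _ ⟨⟨j, hj⟩, rfl⟩, hω2⟩)
  refine hasSupportSet_of_omega1 (fun i => x (G i).1) (fun i => (G i).2.1) (fun i j hij => ?_)
    (fun i j => ?_) (fun i => (hG i).1)
  · exact (hG j).2.1 i hij
  · rcases lt_trichotomy i j with hij | rfl | hij
    · exact ((hG j).2.1 i hij).ge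
    · exact (hG i).1.le
    · exact (hG i).2.2 j hij

end Pool.Agent.Helper67.Supp
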