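import Pool.Agent.Helper67.Supp.Main
import Pool.Agent.Helper67.Supp.Greedy

/-!
# The dual ball, and hereditarily Lindelöf closures
-/

set_option autoImplicit false

open Set Cardinal Pool.Agent.Helper50.Supp
open scoped BoundedContinuousFunction

noncomputable section

namespace Pool.Agent.Helper67.Supp

universe u

variable {X : Type u} [NormedAddCommGroup X] [NormedSpace ℝ X]

/-- The closed unit ball of the dual space with the weak star topology. -/
abbrev Ball (X : Type u) [NormedAddCommGroup X] [NormedSpace ℝ X] : Type u :=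
  (WeakDual.toStrongDual ⁻¹' Metric.closedBall (0 : StrongDual ℝ X) 1 : Set (WeakDual ℝ X))

instance : CompactSpace (Ball X) :=
  isCompact_iff_compactSpace.mp (WeakDual.isCompact_closedBall (𝕜 := ℝ) (E := X) 0 1)

theorem Ball.abs_le (k : Ball X) (x : X) : |k.1 x| ≤ ‖x‖ := by
  have h1 : ‖WeakDual.toStrongDual k.1‖ ≤ 1 := by
    have h := k.2
    rwa [mem_preimage, mem_closedBall_zero_iff] at h
  have h2 := (WeakDual.toStrongDual k.1).le_opNorm x
  refine h2.trans ?_
  exact mul_le_of_le_one_left (norm_nonneg _) h1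

/-- The canonical embedding into the continuous functions on the dual ball. -/
def toC (X : Type u) [NormedAddCommGroup X] [NormedSpace ℝ X] : X →L[ℝ] C(Ball X, ℝ) :=
  LinearMap.mkContinuous
    { toFun := fun x => ⟨fun k => k.1 x, (WeakDual.eval_continuous x).comp
        continuous_subtype_val⟩
      map_add' := fun x y => by
        ext k
        exact map_add k.1 x y
      map_smul' := fun c x => by
        ext k
        exact map_smul k.1 c x } 1 fun x => by
    rw [one_mul]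
    exact (ContinuousMap.norm_le _ (norm_nonneg _)).mpr fun k => Ball.abs_le k x

theorem toC_apply (x : X) (k : Ball X) : toC X x k = k.1 x := rfl

theorem norm_le_toC (x : X) : ‖x‖ ≤ ‖toC X x‖ := by
  obtain ⟨g, hg1, hg2⟩ := exists_dual_vector'' ℝ x
  let k : Ball X := ⟨StrongDual.toWeakDual g, by
    rw [mem_preimage, mem_closedBall_zero_iff]
    exact hg1⟩
  have h1 : toC X x k = ‖x‖ := hg2
  have h2 := ContinuousMap.norm_coe_le_norm (toC X x) k
  rw [h1, norm_norm] at h2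
  exact h2

theorem image_toC_density {κ : Cardinal.{u}} (hκ : ℵ₀ ≤ κ) (E : Set X)
    (hE : ∀ s : Set X, E ⊆ closure s → κ < #s) (D : Set C(Ball X, ℝ)) (hD : #D ≤ κ) :
    ∃ x ∈ E, toC X x ∉ closure D := by
  refine exists_notMem_closure (toC X) hκ E (fun s hs => hE s fun x hx => ?_) D hD
  rw [Metric.mem_closure_iff]
  intro ε hε
  obtain ⟨_, ⟨y, hy, rfl⟩, hxy⟩ := Metric.mem_closure_iff.mp (hs ⟨x, hx, rfl⟩) ε hε
  refine ⟨y, hy, ?_⟩
  rw [dist_eq_norm] at hxy ⊢
  rw [← map_sub] at hxy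
  exact (norm_le_toC _).trans_lt hxy

theorem pair_bound (F : ℕ → Ball X × Ball X) (x : X) (n : ℕ) :
    ‖(F n).1.1 x - (F n).2.1 x‖ ≤ 2 * ‖x‖ := by
  have h1 := Ball.abs_le (F n).1 x
  have h2 := Ball.abs_le (F n).2 x
  rw [Real.norm_eq_abs]
  exact (abs_sub _ _).trans (by linarith)

/-- The operator into bounded sequences given by a sequence of pairs. -/
def toSeq (F : ℕ → Ball X × Ball X) : X →L[ℝ] (ℕ →ᵇ ℝ) :=
  LinearMap.mkContinuous
    { toFun := fun x => BoundedContinuousFunction.ofNormedAddCommGroupDiscrete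
        (fun n => (F n).1.1 x - (F n).2.1 x) (2 * ‖x‖) (pair_bound F x)
      map_add' := fun x y => by
        ext n
        change (F n).1.1 (x + y) - (F n).2.1 (x + y) =
          ((F n).1.1 x - (F n).2.1 x) + ((F n).1.1 y - (F n).2.1 y)
        rw [map_add, map_add]
        ring
      map_smul' := fun c x => by
        ext n
        change (F n).1.1 (c • x) - (F n).2.1 (c • x) = c • ((F n).1.1 x - (F n).2.1 x)
        rw [map_smul, map_smul, smul_sub] } 2 fun x =>
    BoundedContinuousFunction.norm_ofNormedAddCommGroup_le _ (by positivity) (pair_bound F x)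

theorem toSeq_apply (F : ℕ → Ball X × Ball X) (x : X) (n : ℕ) :
    toSeq F x n = (F n).1.1 x - (F n).2.1 x := rfl

/-- Without support sets there are operators into bounded sequences with large range. -/
theorem exists_operator {κ : Cardinal.{u}} (hκ : ℵ₁ ≤ κ) (E : Set X)
    (hE : ∀ s : Set X, E ⊆ closure s → κ < #s)
    (hS : ¬ HasSupportSet X) (Y : Set X) (hY : #Y ≤ κ) :
    ∃ R : X →L[ℝ] (ℕ →ᵇ ℝ), (∀ y ∈ Y, R y = 0) ∧
      (∀ s : Set X, #s ≤ κ → ∃ x ∈ E, ∃ c : ℝ, 0 < c ∧ ∀ y ∈ s, ∃ n, c < R x n ∧ R y n ≤ 0) ∧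
      ∀ s : Set X, R '' E ⊆ closure (R '' s) → κ < #s := by
  by_contra hcon
  refine hS (hasSupportSet_of_cover (toC X) hκ E
    (image_toC_density ((aleph0_le_aleph 1).trans hκ) E hE) Y hY fun F hF => ?_)
  by_contra h1
  push Not at h1
  have h2 : ∀ s : Set X, #s ≤ κ → ∃ x ∈ E, ∃ c : ℝ, 0 < c ∧
      ∀ y ∈ s, ∃ n, c < toSeq F x n ∧ toSeq F y n ≤ 0 :=
    fun s hs => by
      obtain ⟨x, hxE, c, hc, hx⟩ := h1 s hs
      exact ⟨x, hxE, c, hc, fun y hy => hx y hy⟩
  refine hcon ⟨toSeq F, fun y hy => ?_, h2, fun s hs => ?_⟩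
  · ext n
    rw [toSeq_apply]
    exact sub_eq_zero.mpr (hF y hy n)
  · by_contra hle
    obtain ⟨x, hxE, c, hc, hx⟩ := h2 s (not_lt.mp hle)
    obtain ⟨_, ⟨y, hy, rfl⟩, hxy⟩ := Metric.mem_closure_iff.mp (hs ⟨x, hxE, rfl⟩) c hc
    obtain ⟨n, h3, h4⟩ := hx y hy
    have h5 := (BoundedContinuousFunction.dist_coe_le_dist (f := toSeq F x) (g := toSeq F y)
      n).trans_lt hxy
    rw [Real.dist_eq, abs_lt] at h5
    linarith [h5.2]

theorem hl_of_space {K : Type u} [TopologicalSpace K] [HereditarilyLindelofSpace K] :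
    HLDegreeLE K ℵ₀ := by
  intro ι U hU
  obtain ⟨t, ht, h⟩ := eq_open_union_countable U hU
  exact ⟨t, mk_le_aleph0_iff.mpr ht.to_subtype, h⟩

variable {K : Type u} [TopologicalSpace K] [CompactSpace K] [T2Space K]

/-- Restriction of an operator to a closed subset. -/
def restr (T : X →L[ℝ] C(K, ℝ)) (L : Set K) : X →L[ℝ] C(L, ℝ) :=
  (⟨(ContinuousMap.compRightAlgHom ℝ ℝ
      (⟨Subtype.val, continuous_subtype_val⟩ : C(L, K))).toLinearMap,
    ContinuousMap.compRightAlgHom_continuous ℝ ℝ _⟩ : C(K, ℝ) →L[ℝ] C(L, ℝ)).comp T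

theorem restr_apply (T : X →L[ℝ] C(K, ℝ)) (L : Set K) (x : X) (k : L) :
    restr T L x k = T x k := rfl

theorem exists_pairs {κ : Cardinal.{u}} (hκ : ℵ₁ ≤ κ) (T : X →L[ℝ] C(K, ℝ)) (E : Set X)
    (hE : ∀ s : Set X, T '' E ⊆ closure (T '' s) → κ < #s)
    (hS : ¬ HasSupportSet X) (Y : Set X) (hY : #Y ≤ κ) :
    ∃ a b : ℕ → K, (∀ y ∈ Y, ∀ n, T y (a n) = T y (b n)) ∧
      ¬ HereditarilyLindelofSpace (closure (range a ∪ range b)) ∧
      ∀ s : Set X, #s ≤ κ → ∃ x ∈ E, ∃ c : ℝ, 0 < c ∧ ∀ y ∈ s, ∃ n,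
        c < T x (a n) - T x (b n) ∧ T y (a n) - T y (b n) ≤ 0 := by
  have hκ0 : ℵ₀ ≤ κ := (aleph0_le_aleph 1).trans hκ
  by_contra hcon
  refine hS (hasSupportSet_of_cover T hκ E (exists_notMem_closure T hκ0 E hE) Y hY
    fun F hF => ?_)
  by_contra h1
  push Not at h1
  refine hcon ⟨fun n => (F n).1, fun n => (F n).2, hF, fun hL => hS ?_, h1⟩
  set L : Set K := closure (range (fun n => (F n).1) ∪ range fun n => (F n).2) with hLdef
  have hcpt : CompactSpace L := isCompact_iff_compactSpace.mp isClosed_closure.isCompact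
  have hmem : ∀ n, (F n).1 ∈ L ∧ (F n).2 ∈ L := fun n =>
    ⟨subset_closure (Or.inl ⟨n, rfl⟩), subset_closure (Or.inr ⟨n, rfl⟩)⟩
  have hR : RangeDensityGE (restr T L) (Order.succ κ) := by
    intro s hs
    by_contra hlt
    obtain ⟨x, -, c, hc, hx⟩ := h1 s (Order.lt_succ_iff.mp (not_le.mp hlt))
    obtain ⟨_, ⟨y, hy, rfl⟩, hxy⟩ := Metric.mem_closure_iff.mp (hs ⟨x, rfl⟩) (c / 2)
      (half_pos hc)
    obtain ⟨n, h3, h4⟩ := hx y hy
    have h5 := (ContinuousMap.dist_apply_le_dist (f := restr T L x) (g := restr T L y)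
      ⟨(F n).1, (hmem n).1⟩).trans_lt hxy
    have h6 := (ContinuousMap.dist_apply_le_dist (f := restr T L x) (g := restr T L y)
      ⟨(F n).2, (hmem n).2⟩).trans_lt hxy
    rw [restr_apply, restr_apply, Real.dist_eq, abs_lt] at h5 h6
    simp only at h5 h6
    linarith [h5.2, h6.1]
  obtain ⟨z, f, h7, h8⟩ := exists_biorth (K := L) le_rfl (isRegular_succ hκ0)
    (by rw [succ_aleph0]; exact hκ.trans_lt (Order.lt_succ κ)) hl_of_space (restr T L) hR
  refine hasSupportSet_of_biorth ?_ z f h7 h8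
  rw [mk_toType, card_ord]
  exact hκ.trans (Order.le_succ κ)

end Pool.Agent.Helper67.Supp
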