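import Pool.Agent.Helper50.SupportOp

/-!
# Compact spaces fibred over spaces of small hereditary Lindelöf degree
-/

set_option autoImplicit false

open Set Cardinal Pool.Agent.Helper50.Supp

noncomputable section

namespace Pool.Agent.Helper67.Supp

universe u

variable {X : Type u} [NormedAddCommGroup X] [NormedSpace ℝ X]

/-- `X` has a biorthogonal system of cardinality `μ` (indexed by the well-ordered set of type
`μ`). -/
def HasBiorth (X : Type u) [NormedAddCommGroup X] [NormedSpace ℝ X] (μ : Cardinal.{u}) : Prop :=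
  ∃ (z : μ.ord.ToType → X) (f : μ.ord.ToType → X →L[ℝ] ℝ),
    (∀ i, f i (z i) = 1) ∧ ∀ i j, i ≠ j → f i (z j) = 0

section

variable {K : Type u} [TopologicalSpace K] [CompactSpace K]

/-- The restrictions of the range of `T` to `L` have density smaller than `μ`. -/
def SmallOn (T : X →L[ℝ] C(K, ℝ)) (μ : Cardinal.{u}) (L : Set K) : Prop :=
  ∃ s : Set X, #s < μ ∧ ∀ x, ∀ ε > 0, ∃ y ∈ s, ∀ k ∈ L, |T x k - T y k| < ε

theorem smallOn_of_functions {T : X →L[ℝ] C(K, ℝ)} {μ : Cardinal.{u}} (hμ : ℵ₀ < μ) {L : Set K}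
    (D : Set C(K, ℝ)) (hD : #D < μ)
    (h : ∀ x, ∀ ε > 0, ∃ g ∈ D, ∀ k ∈ L, |T x k - g k| < ε) : SmallOn T μ L := by
  have h2 : ∀ p : D × ℕ, ∃ x : X, (∃ y, ∀ k ∈ L, |T y k - p.1.1 k| < 1 / ((p.2 : ℝ) + 1)) →
      ∀ k ∈ L, |T x k - p.1.1 k| < 1 / ((p.2 : ℝ) + 1) := by
    intro p
    by_cases h : ∃ y, ∀ k ∈ L, |T y k - p.1.1 k| < 1 / ((p.2 : ℝ) + 1)
    · obtain ⟨y, hy⟩ := h
      exact ⟨y, fun _ => hy⟩
    · exact ⟨0, fun h' => absurd h' h⟩
  choose F hF using h2
  refine ⟨range F, ?_, fun x ε hε => ?_⟩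
  · refine mk_range_le.trans_lt ?_
    rw [mk_prod, lift_uzero, mk_nat, lift_aleph0]
    exact mul_lt_of_lt hμ.le hD hμ
  obtain ⟨n, hn⟩ := exists_nat_one_div_lt (half_pos hε)
  obtain ⟨d, hd, hxd⟩ := h x (1 / ((n : ℝ) + 1)) (by positivity)
  have h4 := hF (⟨d, hd⟩, n) ⟨x, hxd⟩
  refine ⟨F (⟨d, hd⟩, n), ⟨_, rfl⟩, fun k hk => ?_⟩
  have h5 := (hxd k hk).trans hn
  have h6 := (h4 k hk).trans hn
  rw [abs_lt] at h5 h6 ⊢
  constructor <;> linarith [h5.1, h5.2, h6.1, h6.2]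

theorem exists_sep_functions {T : X →L[ℝ] C(K, ℝ)} {μ : Cardinal.{u}} (hμ : ℵ₀ < μ)
    (hT : RangeDensityGE T μ) (S : Set C(K, ℝ)) (hS : #S < μ) :
    ∃ (x : X) (a b : K), (∀ f ∈ S, f a = f b) ∧ T x a ≠ T x b := by
  by_contra hcon
  push Not at hcon
  obtain ⟨D, hD, hcl⟩ := exists_dense_of_factor (μ := max ℵ₀ #S) (le_max_left _ _) S
    (le_max_right _ _)
  obtain ⟨x, hx⟩ := hT.not_subset hμ D (hD.trans_lt (max_lt hμ hS))
  exact hx (hcl (T x) fun a b hab => hcon x a b hab)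

theorem biorth_of_pairs {μ : Cardinal.{u}} (T : X →L[ℝ] C(K, ℝ)) (x : μ.ord.ToType → X)
    (a b : μ.ord.ToType → K) (h1 : ∀ i, T (x i) (a i) ≠ T (x i) (b i))
    (h0 : ∀ i j, i ≠ j → T (x i) (a j) = T (x i) (b j)) : HasBiorth X μ := by
  let ev : K → X →L[ℝ] ℝ := fun k => (ContinuousMap.evalCLM ℝ k).comp T
  have hev : ∀ k x, ev k x = T x k := fun k x => rfl
  have hc : ∀ i, T (x i) (a i) - T (x i) (b i) ≠ 0 := fun i => sub_ne_zero.mpr (h1 i)
  refine ⟨fun i => (T (x i) (a i) - T (x i) (b i))⁻¹ • x i, fun i => ev (a i) - ev (b i), ?_, ?_⟩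
  · intro i
    rw [map_smul, sub_apply, hev, hev, smul_eq_mul]
    exact inv_mul_cancel₀ (hc i)
  · intro i j hij
    rw [map_smul, sub_apply, hev, hev, smul_eq_mul, h0 j i hij.symm, sub_self, mul_zero]

end

/-- The dichotomy for a map onto a space of small hereditary Lindelöf degree. -/
theorem biorth_of_fibers {L M : Type u} [TopologicalSpace L] [CompactSpace L]
    [TopologicalSpace M] [CompactSpace M] [T2Space M] {κ μ : Cardinal.{u}} (hκ : ℵ₀ ≤ κ)
    (hμ : μ.IsRegular) (hκμ : Order.succ κ < μ) (hM : HLDegreeLE M κ) (π : C(L, M))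
    (T : X →L[ℝ] C(L, ℝ)) (hT : RangeDensityGE T μ)
    (hfib : ∀ m : M, SmallOn T μ (π ⁻¹' {m})) : HasBiorth X μ := by
  have hκμ' : κ < μ := (Order.lt_succ κ).trans hκμ
  have hμ0 : ℵ₀ < μ := hκ.trans_lt hκμ'
  have hbd := fun s hs => bdd_toType hμ s hs
  -- isolating functions
  have hiso : ∀ m : M, ∃ H : Set C(M, ℝ), #H ≤ κ ∧ ∀ m', (∀ h ∈ H, h m' = h m) → m' = m := by
    intro m
    obtain ⟨t, ht, h1⟩ := hM.closed (fun h : C(M, ℝ) => {m' | h m' = h m})
      fun h => isClosed_eq h.continuous continuous_const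
    refine ⟨t, ht, fun m' hm' => ?_⟩
    by_contra hne
    have h2 : m' ∈ ⋂ h : C(M, ℝ), {m' | h m' = h m} := by
      rw [← h1]
      exact mem_iInter₂.mpr fun h hh => hm' h hh
    obtain ⟨f, hf0, hf1, -⟩ := exists_continuous_zero_one_of_isClosed
      (isClosed_singleton (x := m')) (isClosed_singleton (x := m))
      (disjoint_singleton.mpr hne)
    have h3 : f m' = f m := mem_iInter.mp h2 f
    rw [hf0 rfl, hf1 rfl] at h3
    exact zero_ne_one h3
  choose H hH hHiso using hiso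
  choose S hS hSd using hfib
  -- the recursion
  obtain ⟨F, hF⟩ := exists_rec (I := μ.ord.ToType) (α := X × L × L)
    (P := fun i g p => (∀ j (hj : j < i), T (g j hj).1 p.2.1 = T (g j hj).1 p.2.2) ∧
      (∀ j (hj : j < i), ∀ h ∈ H (π (g j hj).2.1), h (π p.2.1) = h (π p.2.2)) ∧
      (∀ j (hj : j < i), ∀ y ∈ S (π (g j hj).2.1), T y p.2.1 = T y p.2.2) ∧
      T p.1 p.2.1 ≠ T p.1 p.2.2) (by
    intro i g
    obtain ⟨x, a, b, h1, h2⟩ := exists_sep_functions hμ0 hT
      ((range fun j : Iio i => T (g j j.2).1) ∪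
        ((⋃ j : Iio i, (fun h : C(M, ℝ) => h.comp π) '' H (π (g j j.2).2.1)) ∪
          ⋃ j : Iio i, T '' S (π (g j j.2).2.1))) (by
        refine (mk_union_le _ _).trans_lt (add_lt_of_lt hμ.1
          (mk_range_le.trans_lt (iio_toType i)) ((mk_union_le _ _).trans_lt
            (add_lt_of_lt hμ.1 ?_ ?_)))
        · exact (card_iUnion_lt_iff_forall_of_isRegular hμ (iio_toType i)).mpr fun j =>
            mk_image_le.trans_lt ((hH _).trans_lt hκμ')
        · exact (card_iUnion_lt_iff_forall_of_isRegular hμ (iio_toType i)).mpr fun j =>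
            mk_image_le.trans_lt (hS _))
    refine ⟨(x, a, b), fun j hj => h1 _ (Or.inl ⟨⟨j, hj⟩, rfl⟩), fun j hj h hh => ?_,
      fun j hj y hy => ?_, h2⟩
    · exact h1 (h.comp π) (Or.inr (Or.inl (mem_iUnion.mpr ⟨⟨j, hj⟩, h, hh, rfl⟩)))
    · exact h1 (T y) (Or.inr (Or.inr (mem_iUnion.mpr ⟨⟨j, hj⟩, y, hy, rfl⟩))))
  -- the relations
  let E : μ.ord.ToType → Set (L × L) := fun β =>
    {p | ∀ j < β, T (F j).1 p.1 = T (F j).1 p.2 ∧
      (∀ h ∈ H (π (F j).2.1), h (π p.1) = h (π p.2)) ∧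
      ∀ y ∈ S (π (F j).2.1), T y p.1 = T y p.2}
  have hEanti : ∀ {β β'}, β ≤ β' → E β' ⊆ E β := fun hβ p hp j hj => hp j (hj.trans_le hβ)
  have hEcl : ∀ β, IsClosed (E β) := by
    intro β
    have h1 : E β = ⋂ (j) (_ : j < β), ({p : L × L | T (F j).1 p.1 = T (F j).1 p.2} ∩
        ((⋂ h ∈ H (π (F j).2.1), {p : L × L | h (π p.1) = h (π p.2)}) ∩
          ⋂ y ∈ S (π (F j).2.1), {p : L × L | T y p.1 = T y p.2})) := by
      ext p
      simp only [E, mem_ofPred_eq, mem_iInter, mem_inter_iff]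
    rw [h1]
    refine isClosed_iInter fun j => isClosed_iInter fun _ => IsClosed.inter ?_
      (IsClosed.inter ?_ ?_)
    · exact isClosed_eq ((T (F j).1).continuous.comp continuous_fst)
        ((T (F j).1).continuous.comp continuous_snd)
    · exact isClosed_biInter fun h _ => isClosed_eq
        ((h.continuous.comp π.continuous).comp continuous_fst)
        ((h.continuous.comp π.continuous).comp continuous_snd)
    · exact isClosed_biInter fun y _ => isClosed_eq ((T y).continuous.comp continuous_fst)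
        ((T y).continuous.comp continuous_snd)
  let G : X → ℕ → Set (L × L) := fun x n => {p | 1 / ((n : ℝ) + 1) ≤ |T x p.1 - T x p.2|}
  have hGcl : ∀ x n, IsClosed (G x n) := fun x n =>
    isClosed_le continuous_const (((T x).continuous.comp continuous_fst).sub
      ((T x).continuous.comp continuous_snd)).abs
  let O : X → ℕ → μ.ord.ToType → Set M := fun x n β => (fun p : L × L => π p.1) '' (E β ∩ G x n)
  have hOcl : ∀ x n β, IsClosed (O x n β) := fun x n β =>
    (((hEcl β).inter (hGcl x n)).isCompact.image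
      (π.continuous.comp continuous_fst)).isClosed
  have hOanti : ∀ x n {β β'}, β ≤ β' → O x n β' ⊆ O x n β := fun x n β β' hβ =>
    image_mono (inter_subset_inter_left _ (hEanti hβ))
  -- reflection
  have hrefl : ∀ δ, Lim κ δ → ∃ β < δ, ∀ n, O (F δ).1 n β ⊆ O (F δ).1 n δ := by
    intro δ hδ
    have hn : ∀ n, ∃ β < δ, O (F δ).1 n β ⊆ O (F δ).1 n δ := by
      intro n
      obtain ⟨t, ht, h1⟩ := hM.closed (fun β : Iio δ => O (F δ).1 n β) fun β => hOcl _ _ _
      obtain ⟨β, hβ, h2⟩ := hδ (Subtype.val '' t) (mk_image_le.trans ht) (by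
        rintro _ ⟨i, -, rfl⟩
        exact i.2)
      refine ⟨β, hβ, fun m hm => ?_⟩
      have h3 : m ∈ ⋂ β : Iio δ, O (F δ).1 n β := by
        rw [← h1]
        exact mem_iInter₂.mpr fun i hi => hOanti _ _ (h2 i ⟨i, hi, rfl⟩).le hm
      obtain ⟨β₀, hβ₀, -⟩ := hδ ∅ (by simp) (by simp)
      have : Nonempty (Iio δ) := ⟨⟨β₀, hβ₀⟩⟩
      have hne := IsCompact.nonempty_iInter_of_directed_nonempty_isCompact_isClosed
        (fun β : Iio δ => (E β ∩ G (F δ).1 n) ∩ {p | π p.1 = m}) (by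
          intro β β'
          refine ⟨max β β', ?_, ?_⟩
          · exact inter_subset_inter_left _ (inter_subset_inter_left _
              (hEanti (le_max_left β.1 β'.1)))
          · exact inter_subset_inter_left _ (inter_subset_inter_left _
              (hEanti (le_max_right β.1 β'.1)))) (by
          intro β
          obtain ⟨p, hp, hpm⟩ := mem_iInter.mp h3 β
          exact ⟨p, hp, hpm⟩) (by
          intro β
          exact (((hEcl β).inter (hGcl _ n)).inter (isClosed_eq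
            (π.continuous.comp continuous_fst) continuous_const)).isCompact) (by
          intro β
          exact ((hEcl β).inter (hGcl _ n)).inter (isClosed_eq
            (π.continuous.comp continuous_fst) continuous_const))
      obtain ⟨p, hp⟩ := hne
      rw [mem_iInter] at hp
      refine ⟨p, ⟨fun j hj => ?_, (hp ⟨β₀, hβ₀⟩).1.2⟩, (hp ⟨β₀, hβ₀⟩).2⟩
      obtain ⟨β', hβ', h4⟩ := hδ {j} (by simpa using one_le_aleph0.trans hκ) (by simpa using hj)
      exact (hp ⟨β', hβ'⟩).1.1 j (h4 j rfl)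
    choose B hB hB2 using hn
    obtain ⟨β, hβ, h5⟩ := hδ (range B)
      ((mk_le_aleph0_iff.mpr (countable_range B).to_subtype).trans hκ) (by
        rintro _ ⟨n, rfl⟩
        exact hB n)
    exact ⟨β, hβ, fun n => (hOanti _ _ (h5 _ ⟨n, rfl⟩).le).trans (hB2 n)⟩
  obtain ⟨β, hβ⟩ := pressing hκ hμ hκμ (fun δ β => ∀ n, O (F δ).1 n β ⊆ O (F δ).1 n δ)
    (fun h1 h2 n => (hOanti _ _ h2).trans (h1 n)) hrefl
  have hsing : ∀ j : μ.ord.ToType, #({j} : Set μ.ord.ToType) < μ := fun j => by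
    rw [mk_singleton]
    exact (one_lt_aleph0.trans_le hμ.1)
  obtain ⟨α, hα⟩ := exists_rec (I := μ.ord.ToType)
    (P := fun i g c => (β < c ∧ ∀ n, O (F c).1 n β ⊆ O (F c).1 n c) ∧
      ∀ j (hj : j < i), g j hj < c) (by
      intro i g
      obtain ⟨c, hc⟩ := hbd ({β} ∪ range (fun j : Iio i => g j j.2)) (by
        exact (mk_union_le _ _).trans_lt (add_lt_of_lt hμ.1 (hsing β)
          (mk_range_le.trans_lt (iio_toType i))))
      obtain ⟨δ, hδ, h2⟩ := hβ c
      exact ⟨δ, ⟨(hc β (Or.inl rfl)).trans hδ, h2⟩, fun j hj =>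
        (hc _ (Or.inr ⟨⟨j, hj⟩, rfl⟩)).trans hδ⟩)
  refine biorth_of_pairs T (fun i => (F (α i)).1) (fun i => (F (α i)).2.1)
    (fun i => (F (α i)).2.2) (fun i => (hF (α i)).2.2.2) fun i j hij => ?_
  rcases lt_or_gt_of_ne hij with hij | hij
  · exact (hF (α j)).1 (α i) ((hα j).2 i hij)
  · -- `j < i`
    have hji : α j < α i := (hα i).2 j hij
    by_contra hne
    have hpos : 0 < |T (F (α i)).1 (F (α j)).2.1 - T (F (α i)).1 (F (α j)).2.2| :=
      abs_pos.mpr (sub_ne_zero.mpr hne)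
    obtain ⟨n, hn⟩ := exists_nat_one_div_lt hpos
    have h1 : ((F (α j)).2.1, (F (α j)).2.2) ∈ E β := fun l hl =>
      ⟨(hF (α j)).1 l (hl.trans (hα j).1.1), (hF (α j)).2.1 l (hl.trans (hα j).1.1),
        (hF (α j)).2.2.1 l (hl.trans (hα j).1.1)⟩
    have h2 : π (F (α j)).2.1 ∈ O (F (α i)).1 n (α i) :=
      (hα i).1.2 n ⟨((F (α j)).2.1, (F (α j)).2.2), ⟨h1, hn.le⟩, rfl⟩
    obtain ⟨⟨a, b⟩, ⟨h3, h4⟩, h5⟩ := h2
    have h6 := h3 (α j) hji
    have h5' : π a = π (F (α j)).2.1 := h5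
    have h7 : π b = π (F (α j)).2.1 := by
      refine hHiso _ _ fun h hh => ?_
      rw [← h6.2.1 h hh, h5']
    have h8 : (0 : ℝ) < 1 / ((n : ℝ) + 1) := by positivity
    obtain ⟨y, hy, hxy⟩ := hSd (π (F (α j)).2.1) (F (α i)).1 _ (half_pos h8)
    have h9 := hxy a h5'
    have h10 := hxy b h7
    have h11 := h6.2.2 y hy
    have h12 : 1 / ((n : ℝ) + 1) ≤ |T (F (α i)).1 a - T (F (α i)).1 b| := h4
    have h13 : |T (F (α i)).1 a - T (F (α i)).1 b| < 1 / ((n : ℝ) + 1) := by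
      simp only at h11
      rw [abs_lt] at h9 h10 ⊢
      constructor <;> linarith [h9.1, h9.2, h10.1, h10.2]
    exact absurd h13 (not_lt.mpr h12)

end Pool.Agent.Helper67.Supp
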