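import Pool.Agent.Helper50.SupportOp

/-!
# Countable sets of pairs with small kernel
-/

set_option autoImplicit false

open Set Cardinal Pool.Agent.Helper50.Supp

noncomputable section

namespace Pool.Agent.Helper67.Supp

universe u

variable {X K : Type u} [NormedAddCommGroup X] [NormedSpace ℝ X] [TopologicalSpace K]
  [CompactSpace K]

/-- The index set of type `ω₁`. -/
abbrev W : Type u := (ℵ_ 1 : Cardinal.{u}).ord.ToType

theorem countable_iio (i : W.{u}) : (Iio i).Countable := by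
  have h := (iio_toType i).trans_eq succ_aleph0.symm
  exact mk_le_aleph0_iff.mp (Order.lt_succ_iff.mp h)

theorem countable_iic (i : W.{u}) : (Iic i).Countable := by
  rw [← Iio_insert]
  exact (countable_iio i).insert i

/-- Density of the image of a set, in terms of sets of functions. -/
theorem exists_notMem_closure {Z : Type u} [NormedAddCommGroup Z] [NormedSpace ℝ Z]
    (T : X →L[ℝ] Z) {κ : Cardinal.{u}} (hκ : ℵ₀ ≤ κ) (E : Set X)
    (hE : ∀ s : Set X, T '' E ⊆ closure (T '' s) → κ < #s) (D : Set Z) (hD : #D ≤ κ) :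
    ∃ x ∈ E, T x ∉ closure D := by
  by_contra hcon
  push Not at hcon
  have h2 : ∀ p : D × ℕ, ∃ x : X, (∃ y, dist (T y) p.1 < 1 / ((p.2 : ℝ) + 1)) →
      dist (T x) p.1 < 1 / ((p.2 : ℝ) + 1) := by
    intro p
    by_cases h : ∃ y, dist (T y) p.1 < 1 / ((p.2 : ℝ) + 1)
    · obtain ⟨y, hy⟩ := h
      exact ⟨y, fun _ => hy⟩
    · exact ⟨0, fun h' => absurd h' h⟩
  choose F hF using h2
  have h3 : #(range F) ≤ κ := by
    refine mk_range_le.trans ?_
    rw [mk_prod, lift_uzero, mk_nat, lift_aleph0]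
    exact mul_le_of_le hκ hD hκ
  refine absurd (hE (range F) ?_) (not_lt.mpr h3)
  rintro _ ⟨x, hx, rfl⟩
  rw [Metric.mem_closure_iff]
  intro ε hε
  obtain ⟨n, hn⟩ := exists_nat_one_div_lt (half_pos hε)
  obtain ⟨d, hd, hxd⟩ := Metric.mem_closure_iff.mp (hcon x hx) (1 / ((n : ℝ) + 1))
    (by positivity)
  have h4 := hF (⟨d, hd⟩, n) ⟨x, hxd⟩
  refine ⟨T (F (⟨d, hd⟩, n)), ⟨_, ⟨_, rfl⟩, rfl⟩, ?_⟩
  calc dist (T x) (T (F (⟨d, hd⟩, n))) ≤ dist (T x) d + dist d (T (F (⟨d, hd⟩, n))) :=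
        dist_triangle _ _ _
    _ < ε / 2 + ε / 2 := by
        rw [dist_comm d]
        exact add_lt_add (hxd.trans hn) (h4.trans hn)
    _ = ε := add_halves ε

/-- The elements of a set `E` which do not separate a suitable countable set of pairs have
small density. -/
theorem exists_kernel (T : X →L[ℝ] C(K, ℝ)) {κ : Cardinal.{u}} (hκ : ℵ₁ ≤ κ) (E : Set X)
    (hE : ∀ D : Set C(K, ℝ), #D ≤ κ → ∃ x ∈ E, T x ∉ closure D)
    (hX : ¬ HasSupportSet X) (Y : Set X) (hY : #Y ≤ κ) :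
    ∃ F : ℕ → K × K, (∀ y ∈ Y, ∀ n, T y (F n).1 = T y (F n).2) ∧
      ∃ D : Set C(K, ℝ), #D ≤ κ ∧
        ∀ x ∈ E, (∀ n, T x (F n).1 = T x (F n).2) → T x ∈ closure D := by
  by_contra hcon
  push Not at hcon
  have hκ0 : ℵ₀ ≤ κ := (aleph0_le_aleph 1).trans hκ
  have hKne : Nonempty K := by
    by_contra hK
    rw [not_nonempty_iff] at hK
    obtain ⟨x, -, hx⟩ := hE {0} (by
      rw [mk_singleton]
      exact one_le_aleph0.trans hκ0)
    refine hx (subset_closure ?_)
    rw [mem_singleton_iff]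
    ext k
    exact hK.elim k
  obtain ⟨G, hG⟩ := exists_rec (I := W.{u}) (α := X × {p : K × K // ∀ y ∈ Y, T y p.1 = T y p.2})
    (P := fun i g p => (∀ j (hj : j < i), T p.1 (g j hj).2.1.1 = T p.1 (g j hj).2.1.2) ∧
      (∀ j (hj : j < i), T (g j hj).1 p.2.1.1 = T (g j hj).1 p.2.1.2) ∧
      T p.1 p.2.1.1 ≠ T p.1 p.2.1.2) (by
    intro i g
    obtain ⟨k₀⟩ := hKne
    have hc : Countable (Option (Iio i)) := by
      have := (countable_iio i).to_subtype
      infer_instance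
    obtain ⟨e, he⟩ := exists_surjective_nat (Option (Iio i))
    let H : Option (Iio i) → {p : K × K // ∀ y ∈ Y, T y p.1 = T y p.2} := fun o =>
      o.elim ⟨(k₀, k₀), fun _ _ => rfl⟩ fun j => (g j.1 j.2).2
    obtain ⟨D, hD, hcl⟩ := exists_dense_of_factor hκ0
      (T '' (Y ∪ range fun j : Iio i => (g j.1 j.2).1)) (by
        refine mk_image_le.trans ((mk_union_le _ _).trans (add_le_of_le hκ0 hY ?_))
        exact mk_range_le.trans ((mk_le_aleph0_iff.mpr (countable_iio i).to_subtype).trans hκ0))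
    obtain ⟨x, -, hx1, hx2⟩ := hcon (fun n => (H (e n)).1) (fun y hy n => (H (e n)).2 y hy) D hD
    have h1 : ∃ a b, (∀ f ∈ T '' (Y ∪ range fun j : Iio i => (g j.1 j.2).1), f a = f b) ∧
        T x a ≠ T x b := by
      by_contra h2
      push Not at h2
      exact hx2 (hcl (T x) fun a b hab => h2 a b hab)
    obtain ⟨a, b, hab, hne⟩ := h1
    refine ⟨(x, ⟨(a, b), fun y hy => hab _ ⟨y, Or.inl hy, rfl⟩⟩), ?_, ?_, hne⟩
    · intro j hj
      obtain ⟨n, hn⟩ := he (some ⟨j, hj⟩)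
      have h3 := hx1 n
      rw [hn] at h3
      exact h3
    · intro j hj
      exact hab _ ⟨_, Or.inr ⟨⟨j, hj⟩, rfl⟩, rfl⟩)
  let ev : K → X →L[ℝ] ℝ := fun k => (ContinuousMap.evalCLM ℝ k).comp T
  have hev : ∀ k x, ev k x = T x k := fun k x => rfl
  let c : W.{u} → ℝ := fun i => T (G i).1 (G i).2.1.1 - T (G i).1 (G i).2.1.2
  have hc : ∀ i, c i ≠ 0 := fun i => sub_ne_zero.mpr (hG i).2.2
  refine hX (hasSupportSet_of_biorth (ι := W.{u}) (by rw [mk_toType, card_ord])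
    (fun i => (c i)⁻¹ • (G i).1) (fun i => ev (G i).2.1.1 - ev (G i).2.1.2) ?_ ?_)
  · intro i
    rw [map_smul, sub_apply, hev, hev, smul_eq_mul]
    exact inv_mul_cancel₀ (hc i)
  · intro i j hij
    rw [map_smul, sub_apply, hev, hev, smul_eq_mul]
    rcases lt_or_gt_of_ne hij with h | h
    · rw [(hG j).1 i h, sub_self, mul_zero]
    · rw [(hG i).2.1 j h, sub_self, mul_zero]

end Pool.Agent.Helper67.Supp
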