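import Pool.Agent.Helper67.Supp.Chain

/-!
# Support sets: operators into bounded sequences, and families of countable sets
-/

set_option autoImplicit false

open Set Cardinal Pool.Agent.Helper50.Supp

noncomputable section

namespace Pool.Agent.Helper67.Supp

universe u

variable {X K : Type u} [NormedAddCommGroup X] [NormedSpace ℝ X] [TopologicalSpace K]
  [CompactSpace K]

/-- If for all countable sets of pairs killing `Y` the sets of pairs at which an element of `E`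
has a gap above a given bound are covered by few positivity sets, there is a support set. -/
theorem hasSupportSet_of_cover (T : X →L[ℝ] C(K, ℝ)) {κ : Cardinal.{u}} (hκ : ℵ₁ ≤ κ)
    (E : Set X) (hE : ∀ D : Set C(K, ℝ), #D ≤ κ → ∃ x ∈ E, T x ∉ closure D)
    (Y : Set X) (hY : #Y ≤ κ)
    (hS : ∀ F : ℕ → K × K, (∀ y ∈ Y, ∀ n, T y (F n).1 = T y (F n).2) →
      ∃ s : Set X, #s ≤ κ ∧ ∀ x ∈ E, ∀ c : ℝ, 0 < c → ∃ y ∈ s, ∀ n,
        c < T x (F n).1 - T x (F n).2 → 0 < T y (F n).1 - T y (F n).2) :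
    HasSupportSet X := by
  by_contra hX
  obtain ⟨F, D, d, hdE, h1, h2, h3⟩ := exists_chain T hκ E hE hX Y hY
    (fun i F D => ∀ x ∈ E, ∀ c : ℝ, 0 < c → ∃ a, ∀ j (hj : j ≤ i) n,
      c < T x (F j hj n).1 - T x (F j hj n).2 →
      0 < T (D a) (F j hj n).1 - T (D a) (F j hj n).2) (by
    intro i F hF
    have hc : Countable (Iic i × ℕ) := by
      have := (countable_iic i).to_subtype
      infer_instance
    have : Nonempty (Iic i × ℕ) := ⟨(⟨i, self_mem_Iic⟩, 0)⟩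
    obtain ⟨e, he⟩ := exists_surjective_nat (Iic i × ℕ)
    obtain ⟨s, hs, h⟩ := hS (fun n => F (e n).1.1 (e n).1.2 (e n).2)
      (fun y hy n => hF y hy _ _ _)
    obtain ⟨D, hD⟩ := exists_enum s hs
    refine ⟨D, fun x hx c hc => ?_⟩
    obtain ⟨y, hy, hxy⟩ := h x hx c hc
    obtain ⟨a, rfl⟩ := hD hy
    refine ⟨a, fun j hj n => ?_⟩
    obtain ⟨m, hm⟩ := he (⟨j, hj⟩, n)
    have h4 := hxy m
    simp only [hm] at h4
    exact h4)
  choose N hN using h3
  -- an uncountable set with a uniform gap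
  let A : ℕ → Set W.{u} := fun m =>
    {i | 1 / ((m : ℝ) + 1) < T d (F i (N i)).1 - T d (F i (N i)).2}
  have hA : ∃ m, ¬ (A m).Countable := by
    by_contra hcon
    push Not at hcon
    refine uncountable_W ((countable_iUnion hcon).mono fun i _ => ?_)
    obtain ⟨m, hm⟩ := exists_nat_one_div_lt (sub_pos.mpr (hN i))
    exact mem_iUnion.mpr ⟨m, hm⟩
  obtain ⟨m, hm⟩ := hA
  have hr : (0 : ℝ) < 1 / ((m : ℝ) + 1) := by positivity
  choose a ha using fun i => h2 i d hdE _ hr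
  refine hX (finish T (A m) hm (fun i => F i (N i)) (fun i => D i (a i)) ?_ ?_)
  · intro i _ j _ hij
    exact h1 i j hij _ _
  · intro i _ j hj hji
    exact sub_pos.mp (ha i j hji (N j) hj)

/-- The case of a family of sets which catches uncountable subsets of `ω₁`. -/
theorem hasSupportSet_of_family (T : X →L[ℝ] C(K, ℝ)) {κ : Cardinal.{u}} (hκ : ℵ₁ ≤ κ)
    (hE : ∀ D : Set C(K, ℝ), #D ≤ κ → ∃ x ∈ (univ : Set X), T x ∉ closure D)
    (𝒯 : Set (Set W.{u})) (h𝒯 : #𝒯 ≤ κ)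
    (hA : ∀ A : Set W.{u}, ¬ A.Countable → ∃ B ⊆ A, ¬ B.Countable ∧
      ∀ i ∈ B, ∃ t ∈ 𝒯, B ∩ Iic i ⊆ t ∧ t ⊆ A) : HasSupportSet X := by
  have hκ0 : ℵ₀ ≤ κ := (aleph0_le_aleph 1).trans hκ
  by_contra hX
  obtain ⟨F, D, d, -, h1, h2, h3⟩ := exists_chain T hκ univ hE hX ∅ (by simp)
    (fun i F D => ∀ t ∈ 𝒯, ∀ n x, (∀ j (hj : j ≤ i), j ∈ t →
        T x (F j hj n).2 < T x (F j hj n).1) →
      ∃ a, ∀ j (hj : j ≤ i), j ∈ t → T (D a) (F j hj n).2 < T (D a) (F j hj n).1) (by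
    intro i F _
    have h4 : ∀ p : 𝒯 × ℕ, ∃ y, (∃ x, ∀ j (hj : j ≤ i), j ∈ p.1.1 →
        T x (F j hj p.2).2 < T x (F j hj p.2).1) →
        ∀ j (hj : j ≤ i), j ∈ p.1.1 → T y (F j hj p.2).2 < T y (F j hj p.2).1 := by
      intro p
      by_cases h : ∃ x, ∀ j (hj : j ≤ i), j ∈ p.1.1 →
        T x (F j hj p.2).2 < T x (F j hj p.2).1
      · obtain ⟨x, hx⟩ := h
        exact ⟨x, fun _ => hx⟩
      · exact ⟨0, fun h' => absurd h' h⟩
    choose y hy using h4
    obtain ⟨D, hD⟩ := exists_enum (κ := κ) (range y) (by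
      refine mk_range_le.trans ?_
      rw [mk_prod, lift_uzero, mk_nat, lift_aleph0]
      exact mul_le_of_le hκ0 h𝒯 hκ0)
    refine ⟨D, fun t ht n x hx => ?_⟩
    obtain ⟨a, ha⟩ := hD ⟨(⟨t, ht⟩, n), rfl⟩
    refine ⟨a, ?_⟩
    rw [ha]
    exact hy (⟨t, ht⟩, n) ⟨x, hx⟩)
  let A : ℕ → Set W.{u} := fun n => {i | T d (F i n).2 < T d (F i n).1}
  have hA' : ∃ n, ¬ (A n).Countable := by
    by_contra hcon
    push Not at hcon
    refine uncountable_W ((countable_iUnion hcon).mono fun i _ => ?_)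
    obtain ⟨n, hn⟩ := h3 i
    exact mem_iUnion.mpr ⟨n, hn⟩
  obtain ⟨n, hn⟩ := hA'
  obtain ⟨B, hBA, hB, h4⟩ := hA (A n) hn
  have h5 : ∀ i : W.{u}, ∃ a, i ∈ B → ∀ j ∈ B, j ≤ i →
      T (D i a) (F j n).2 < T (D i a) (F j n).1 := by
    intro i
    by_cases hi : i ∈ B
    · obtain ⟨t, ht, hBt, htA⟩ := h4 i hi
      obtain ⟨a, ha⟩ := h2 i t ht n d (fun j _ hj => htA hj)
      exact ⟨a, fun _ j hj hji => ha j hji (hBt ⟨hj, hji⟩)⟩
    · have h6 : Nonempty κ.ord.ToType := by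
        rw [← mk_ne_zero_iff, mk_toType, card_ord]
        exact (aleph0_pos.trans_le hκ0).ne'
      exact ⟨Classical.arbitrary _, fun h => absurd h hi⟩
  choose a ha using h5
  refine hX (finish T B hB (fun i => F i n) (fun i => D i (a i)) ?_ ?_)
  · intro i _ j _ hij
    exact h1 i j hij _ _
  · intro i hi j hj hji
    exact ha i hi j hj hji

end Pool.Agent.Helper67.Supp
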