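import Pool.Agent.Helper67.Supp.Fib
import Pool.Agent.Helper67.Supp.Dual

/-!
# Products of spaces
-/

set_option autoImplicit false

open Set Cardinal Pool.Agent.Helper50.Supp

noncomputable section

namespace Pool.Agent.Helper67.Supp

universe u

variable {X : Type u} [NormedAddCommGroup X] [NormedSpace ℝ X]

section Basic

variable {K : Type u} [TopologicalSpace K] [CompactSpace K]

theorem smallOn_of_family {T : X →L[ℝ] C(K, ℝ)} {μ : Cardinal.{u}} (hμ : ℵ₀ < μ) {L : Set K}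
    {ι : Type u} (G : ι → K → ℝ) (hι : #ι < μ)
    (h : ∀ x, ∀ ε > 0, ∃ i, ∀ k ∈ L, |T x k - G i k| < ε) : SmallOn T μ L := by
  have h2 : ∀ p : ι × ℕ, ∃ x : X, (∃ y, ∀ k ∈ L, |T y k - G p.1 k| < 1 / ((p.2 : ℝ) + 1)) →
      ∀ k ∈ L, |T x k - G p.1 k| < 1 / ((p.2 : ℝ) + 1) := by
    intro p
    by_cases h : ∃ y, ∀ k ∈ L, |T y k - G p.1 k| < 1 / ((p.2 : ℝ) + 1)
    · obtain ⟨y, hy⟩ := h
      exact ⟨y, fun _ => hy⟩
    · exact ⟨0, fun h' => absurd h' h⟩
  choose F hF using h2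
  refine ⟨range F, ?_, fun x ε hε => ?_⟩
  · refine mk_range_le.trans_lt ?_
    rw [mk_prod, lift_uzero, mk_nat, lift_aleph0]
    exact mul_lt_of_lt hμ.le hι hμ
  obtain ⟨n, hn⟩ := exists_nat_one_div_lt (half_pos hε)
  obtain ⟨d, hxd⟩ := h x (1 / ((n : ℝ) + 1)) (by positivity)
  have h4 := hF (d, n) ⟨x, hxd⟩
  refine ⟨F (d, n), ⟨_, rfl⟩, fun k hk => ?_⟩
  have h5 := (hxd k hk).trans hn
  have h6 := (h4 k hk).trans hn
  rw [abs_lt] at h5 h6 ⊢
  constructor <;> linarith [h5.1, h5.2, h6.1, h6.2]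

theorem rangeDensity_of_not {T : X →L[ℝ] C(K, ℝ)} {μ : Cardinal.{u}}
    (h : ¬ SmallOn T μ univ) : RangeDensityGE T μ := by
  intro s hs
  by_contra hlt
  refine h ⟨s, not_le.mp hlt, fun x ε hε => ?_⟩
  obtain ⟨_, ⟨y, hy, rfl⟩, hxy⟩ := Metric.mem_closure_iff.mp (hs ⟨x, rfl⟩) ε hε
  exact ⟨y, hy, fun k _ => (ContinuousMap.dist_apply_le_dist k).trans_lt hxy⟩

/-- Composition with a continuous map. -/
def pull {K' : Type u} [TopologicalSpace K'] [CompactSpace K'] (T : X →L[ℝ] C(K, ℝ))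
    (f : C(K', K)) : X →L[ℝ] C(K', ℝ) :=
  (⟨(ContinuousMap.compRightAlgHom ℝ ℝ f).toLinearMap,
    ContinuousMap.compRightAlgHom_continuous ℝ ℝ _⟩ : C(K, ℝ) →L[ℝ] C(K', ℝ)).comp T

theorem pull_apply {K' : Type u} [TopologicalSpace K'] [CompactSpace K']
    (T : X →L[ℝ] C(K, ℝ)) (f : C(K', K)) (x : X) (k : K') : pull T f x k = T x (f k) := rfl

theorem smallOn_of_pull {K' : Type u} [TopologicalSpace K'] [CompactSpace K']
    {T : X →L[ℝ] C(K, ℝ)} (f : C(K', K)) {μ : Cardinal.{u}} {L : Set K} {L' : Set K'}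
    (h : SmallOn (pull T f) μ L') (hL : ∀ k ∈ L, ∃ k' ∈ L', f k' = k) : SmallOn T μ L := by
  obtain ⟨s, hs, h1⟩ := h
  refine ⟨s, hs, fun x ε hε => ?_⟩
  obtain ⟨y, hy, h2⟩ := h1 x ε hε
  refine ⟨y, hy, fun k hk => ?_⟩
  obtain ⟨k', hk', rfl⟩ := hL k hk
  exact h2 k' hk'

theorem exists_dense_points [T2Space K] {μ : Cardinal.{u}} (hμ : ℵ₀ < μ) (D : Set C(K, ℝ))
    (hD : #D < μ) (hsep : ∀ a b, (∀ f ∈ D, f a = f b) → a = b) :
    ∃ Q : Set K, #Q < μ ∧ Dense Q := by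
  obtain ⟨D', hD', hcl⟩ := exists_dense_of_factor (μ := max ℵ₀ #D) (le_max_left _ _) D
    (le_max_right _ _)
  have hcl' : ∀ g, g ∈ closure D' := fun g => hcl g fun a b hab => by rw [hsep a b hab]
  refine ⟨range fun g : {g : D' // ∃ k, 1 / 2 < g.1 k} => g.2.choose, ?_, ?_⟩
  · refine mk_range_le.trans_lt ((mk_subtype_le _).trans_lt ?_)
    exact hD'.trans_lt (max_lt hμ hD)
  rw [dense_iff_inter_open]
  rintro U hU ⟨u, hu⟩
  obtain ⟨f, hf0, hf1, -⟩ := exists_continuous_zero_one_of_isClosed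
    hU.isClosed_compl (isClosed_singleton (x := u)) (by
      rw [disjoint_singleton_right]
      exact fun h => h hu)
  obtain ⟨g, hg, hfg⟩ := Metric.mem_closure_iff.mp (hcl' f) (1 / 2) (by norm_num)
  have h1 : ∀ k, |f k - g k| < 1 / 2 := fun k =>
    (ContinuousMap.dist_apply_le_dist (f := f) (g := g) k).trans_lt hfg
  have h2 : 1 / 2 < g u := by
    have h := h1 u
    have h' : f u = 1 := hf1 rfl
    rw [h', abs_lt] at h
    linarith [h.2]
  have h3 : ∃ k, 1 / 2 < g k := ⟨u, h2⟩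
  refine ⟨h3.choose, ?_, ⟨⟨⟨g, hg⟩, h3⟩, rfl⟩⟩
  by_contra hk
  have h4 : f h3.choose = 0 := hf0 hk
  have h5 := h1 h3.choose
  have h6 := h3.choose_spec
  rw [h4, abs_lt] at h5
  linarith [h5.1]

/-- Every operator into `C(K)` has range of density smaller than `μ`. -/
def CC (X : Type u) [NormedAddCommGroup X] [NormedSpace ℝ X] (μ : Cardinal.{u}) (K : Type u)
    [TopologicalSpace K] [CompactSpace K] : Prop :=
  ∀ T : X →L[ℝ] C(K, ℝ), SmallOn T μ univ

/-- The spaces whose products with spaces of the class `CC` are in `CC`. -/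
def DD (X : Type u) [NormedAddCommGroup X] [NormedSpace ℝ X] (μ : Cardinal.{u}) (K : Type u)
    [TopologicalSpace K] [CompactSpace K] : Prop :=
  ∀ (L : Type u) [TopologicalSpace L] [CompactSpace L] [T2Space L], CC X μ L → CC X μ (K × L)

theorem CC_image {K' : Type u} [TopologicalSpace K'] [CompactSpace K'] {μ : Cardinal.{u}}
    (f : C(K, K')) (hf : Function.Surjective f) (h : CC X μ K) : CC X μ K' := fun T =>
  smallOn_of_pull f (h (pull T f)) fun k _ => by
    obtain ⟨k', hk'⟩ := hf k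
    exact ⟨k', trivial, hk'⟩

theorem DD_image {K' : Type u} [TopologicalSpace K'] [CompactSpace K'] {μ : Cardinal.{u}}
    (f : C(K, K')) (hf : Function.Surjective f) (h : DD X μ K) : DD X μ K' := by
  intro L _ _ _ hL
  refine CC_image ⟨Prod.map f id, f.continuous.prodMap continuous_id⟩ ?_ (h L hL)
  exact hf.prodMap Function.surjective_id

theorem CC_punit {μ : Cardinal.{u}} (hμ : ℵ₀ < μ) : CC X μ PUnit.{u + 1} := by
  intro T
  obtain ⟨D', hD', hcl⟩ := exists_dense_of_factor (K := PUnit.{u + 1}) (μ := ℵ₀) le_rfl ∅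
    (by simp)
  refine smallOn_of_functions hμ D' (hD'.trans_lt hμ) fun x ε hε => ?_
  obtain ⟨g, hg, hxg⟩ := Metric.mem_closure_iff.mp (hcl (T x) fun a b _ => by
    rw [Subsingleton.elim a b]) ε hε
  exact ⟨g, hg, fun k _ => (ContinuousMap.dist_apply_le_dist k).trans_lt hxg⟩

theorem CC_of_DD {μ : Cardinal.{u}} (hμ : ℵ₀ < μ) (h : DD X μ K) : CC X μ K :=
  CC_image (K := K × PUnit.{u + 1}) ContinuousMap.fst Prod.fst_surjective
    (h PUnit.{u + 1} (CC_punit hμ))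

theorem DD_small [T2Space K] {μ : Cardinal.{u}} (hμ : μ.IsRegular) (hμ0 : ℵ₀ < μ)
    (D : Set C(K, ℝ)) (hD : #D < μ) (hsep : ∀ a b, (∀ f ∈ D, f a = f b) → a = b) :
    DD X μ K := by
  intro L _ _ _ hL T
  obtain ⟨Q, hQ, hQd⟩ := exists_dense_points hμ0 D hD hsep
  choose S hS hSd using fun k : K => hL (pull T ⟨fun l => (k, l), by fun_prop⟩)
  set E : Set C(K × L, ℝ) := (fun f : C(K, ℝ) => f.comp ContinuousMap.fst) '' D ∪
    ⋃ k : Q, (fun y => (T y).comp ⟨fun q : K × L => (k.1, q.2), by fun_prop⟩) '' S k with hE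
  have hEc : #E < μ := by
    refine (mk_union_le _ _).trans_lt (add_lt_of_lt hμ.1 (mk_image_le.trans_lt hD) ?_)
    exact (card_iUnion_lt_iff_forall_of_isRegular hμ hQ).mpr fun k =>
      mk_image_le.trans_lt (hS _)
  obtain ⟨D', hD', hcl⟩ := exists_dense_of_factor (μ := max ℵ₀ #E) (le_max_left _ _) E
    (le_max_right _ _)
  refine smallOn_of_functions hμ0 D' (hD'.trans_lt (max_lt hμ0 hEc)) fun x ε hε => ?_
  have hfac : ∀ q q' : K × L, (∀ f ∈ E, f q = f q') → T x q = T x q' := by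
    intro q q' hqq
    have hk : q.1 = q'.1 := hsep _ _ fun f hf =>
      hqq (f.comp ContinuousMap.fst) (Or.inl ⟨f, hf, rfl⟩)
    have hclosed : IsClosed {k : K | T x (k, q.2) = T x (k, q'.2)} :=
      isClosed_eq (by fun_prop) (by fun_prop)
    have hsub : Q ⊆ {k : K | T x (k, q.2) = T x (k, q'.2)} := by
      intro k hk
      by_contra hne
      have hpos : 0 < |T x (k, q.2) - T x (k, q'.2)| := abs_pos.mpr (sub_ne_zero.mpr hne)
      obtain ⟨y, hy, hxy⟩ := hSd k x _ (half_pos hpos)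
      have e1 := hxy q.2 trivial
      have e2 := hxy q'.2 trivial
      have e3 : T y (k, q.2) = T y (k, q'.2) :=
        hqq _ (Or.inr (mem_iUnion.mpr ⟨⟨k, hk⟩, y, hy, rfl⟩))
      rw [pull_apply, pull_apply] at e1 e2
      change |T x (k, q.2) - T y (k, q.2)| < _ at e1
      change |T x (k, q'.2) - T y (k, q'.2)| < _ at e2
      rw [e3] at e1
      have e4 := abs_sub_le (T x (k, q.2)) (T y (k, q'.2)) (T x (k, q'.2))
      rw [abs_sub_comm (T y (k, q'.2))] at e4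
      linarith
    have h5 : q.1 ∈ {k : K | T x (k, q.2) = T x (k, q'.2)} :=
      closure_minimal hsub hclosed (hQd q.1)
    have h6 : T x (q.1, q.2) = T x (q.1, q'.2) := h5
    calc T x q = T x (q.1, q.2) := rfl
      _ = T x (q.1, q'.2) := h6
      _ = T x (q'.1, q'.2) := by rw [hk]
      _ = T x q' := rfl
  obtain ⟨g, hg, hxg⟩ := Metric.mem_closure_iff.mp (hcl (T x) hfac) ε hε
  exact ⟨g, hg, fun k _ => (ContinuousMap.dist_apply_le_dist k).trans_lt hxg⟩

theorem DD_fib {M : Type u} [TopologicalSpace M] [CompactSpace M] [T2Space M]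
    {κ μ : Cardinal.{u}} (hκ : ℵ₀ ≤ κ) (hμ : μ.IsRegular) (hκμ : Order.succ κ < μ)
    (hM : HLDegreeLE M κ) (hno : ¬ HasBiorth X μ) (π : C(K, M))
    [∀ m, CompactSpace (π ⁻¹' {m} : Set K)] (h : ∀ m, DD X μ (π ⁻¹' {m} : Set K)) :
    DD X μ K := by
  intro L _ _ _ hL T
  by_contra hT
  refine hno (biorth_of_fibers hκ hμ hκμ hM (π.comp ContinuousMap.fst) T
    (rangeDensity_of_not hT) fun m => ?_)
  refine smallOn_of_pull ⟨fun q : (π ⁻¹' {m} : Set K) × L => (q.1.1, q.2), by fun_prop⟩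
    (h m L hL _) fun q hq => ?_
  exact ⟨(⟨q.1, hq⟩, q.2), trivial, rfl⟩

end Basic

section Prod

variable {I : Type u} {Kf : I → Type u} [∀ i, TopologicalSpace (Kf i)]
  {L : Type u} [TopologicalSpace L]

open Classical in
/-- Replace the coordinates outside `J` by those of `p`. -/
def rr (p : ∀ i, Kf i) (J : Set I) : C((∀ i, Kf i) × L, (∀ i, Kf i) × L) :=
  ⟨fun q => (fun i => if i ∈ J then q.1 i else p i, q.2), by
    refine Continuous.prodMk (continuous_pi fun i => ?_) continuous_snd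
    by_cases h : i ∈ J
    · simp only [h, if_true]
      exact (continuous_apply i).comp continuous_fst
    · simp only [h, if_false]
      exact continuous_const⟩

theorem rr_snd (p : ∀ i, Kf i) (J : Set I) (q : (∀ i, Kf i) × L) : (rr p J q).2 = q.2 := rfl

theorem rr_of_mem {p : ∀ i, Kf i} {J : Set I} {q : (∀ i, Kf i) × L} {i : I} (h : i ∈ J) :
    (rr p J q).1 i = q.1 i := if_pos h

theorem rr_of_notMem {p : ∀ i, Kf i} {J : Set I} {q : (∀ i, Kf i) × L} {i : I} (h : i ∉ J) :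
    (rr p J q).1 i = p i := if_neg h

/-- The points whose coordinates outside `J` are those of `p`. -/
def AA (p : ∀ i, Kf i) (J : Set I) : Set ((∀ i, Kf i) × L) := {q | ∀ i ∉ J, q.1 i = p i}

theorem rr_mem (p : ∀ i, Kf i) (J : Set I) (q : (∀ i, Kf i) × L) : rr p J q ∈ AA p J :=
  fun _ hi => rr_of_notMem hi

variable [∀ i, CompactSpace (Kf i)] [∀ i, T2Space (Kf i)] [CompactSpace L] [T2Space L]

theorem exists_finset (g : C((∀ i, Kf i) × L, ℝ)) {ε : ℝ} (hε : 0 < ε) :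
    ∃ F : Finset I, ∀ q q' : (∀ i, Kf i) × L, q.2 = q'.2 → (∀ i ∈ F, q.1 i = q'.1 i) →
      |g q - g q'| < ε := by
  have hG : IsCompact {z : ((∀ i, Kf i) × L) × ((∀ i, Kf i) × L) |
      ε ≤ |g z.1 - g z.2| ∧ z.1.2 = z.2.2} := by
    refine IsClosed.isCompact (IsClosed.inter ?_ ?_)
    · exact isClosed_le continuous_const ((g.continuous.comp continuous_fst).sub
        (g.continuous.comp continuous_snd)).abs
    · exact isClosed_eq (continuous_snd.comp continuous_fst)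
        (continuous_snd.comp continuous_snd)
  obtain ⟨F, hF⟩ := hG.elim_finite_subfamily_closed
    (fun i : I => {z : ((∀ i, Kf i) × L) × ((∀ i, Kf i) × L) | z.1.1 i = z.2.1 i})
    (fun i => isClosed_eq
      ((continuous_apply i).comp (continuous_fst.comp continuous_fst))
      ((continuous_apply i).comp (continuous_fst.comp continuous_snd))) (by
      rw [eq_empty_iff_forall_notMem]
      rintro ⟨q, q'⟩ ⟨⟨h1, h2⟩, h3⟩
      rw [mem_iInter] at h3
      have h4 : q = q' := Prod.ext (funext h3) h2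
      simp only [h4, sub_self, abs_zero] at h1
      exact absurd hε (not_lt.mpr h1))
  refine ⟨F, fun q q' h2 h1 => ?_⟩
  by_contra hcon
  rw [eq_empty_iff_forall_notMem] at hF
  exact hF (q, q') ⟨⟨not_lt.mp hcon, h2⟩, mem_iInter₂.mpr h1⟩

theorem exists_supp (g : C((∀ i, Kf i) × L, ℝ)) :
    ∃ C : Set I, C.Countable ∧ ∀ q q' : (∀ i, Kf i) × L, q.2 = q'.2 →
      (∀ i ∈ C, q.1 i = q'.1 i) → g q = g q' := by
  choose F hF using fun n : ℕ => exists_finset g (ε := 1 / ((n : ℝ) + 1)) (by positivity)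
  refine ⟨⋃ n, (F n : Set I), countable_iUnion fun n => (F n).countable_toSet,
    fun q q' h2 h1 => ?_⟩
  by_contra hne
  obtain ⟨n, hn⟩ := exists_nat_one_div_lt (abs_pos.mpr (sub_ne_zero.mpr hne))
  exact absurd (hF n q q' h2 fun i hi => h1 i (mem_iUnion.mpr ⟨n, hi⟩)) (not_lt.mpr hn.le)

theorem small_fin {μ : Cardinal.{u}} (hD : ∀ i, DD X μ (Kf i)) (p : ∀ i, Kf i)
    (F : Finset I) : ∀ (L : Type u) [TopologicalSpace L] [CompactSpace L] [T2Space L],
      CC X μ L → ∀ T : X →L[ℝ] C((∀ i, Kf i) × L, ℝ), SmallOn T μ (AA p (F : Set I)) := by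
  classical
  induction F using Finset.induction_on with
  | empty =>
    intro L _ _ _ hL T
    let f : C(L, (∀ i, Kf i) × L) := ⟨fun l : L => (p, l), continuous_const.prodMk continuous_id⟩
    exact smallOn_of_pull f (hL _) fun q hq =>
      ⟨q.2, trivial, Prod.ext (funext fun i => (hq i (by simp)).symm) rfl⟩
  | insert i F hi ih =>
    intro L _ _ _ hL T
    let f : C((∀ i, Kf i) × (Kf i × L), (∀ i, Kf i) × L) :=
      ⟨fun z => (Function.update z.1 i z.2.1, z.2.2),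
        (continuous_fst.update i (continuous_fst.comp continuous_snd)).prodMk
          (continuous_snd.comp continuous_snd)⟩
    refine smallOn_of_pull f (ih (Kf i × L) (hD i L hL) _) fun q hq =>
        ⟨(Function.update q.1 i (p i), (q.1 i, q.2)), fun j hj => ?_, ?_⟩
    · by_cases hji : j = i
      · subst hji
        simp
      · simp only [Function.update_of_ne hji]
        refine hq j ?_
        rw [Finset.coe_insert, mem_insert_iff, not_or]
        exact ⟨hji, hj⟩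
    · change (Function.update (Function.update q.1 i (p i)) i (q.1 i), q.2) = q
      rw [Function.update_idem, Function.update_eq_self]

theorem small_lt {μ : Cardinal.{u}} (hμ : μ.IsRegular) (hμ0 : ℵ₀ < μ) (p : ∀ i, Kf i)
    {T : X →L[ℝ] C((∀ i, Kf i) × L, ℝ)}
    (h : ∀ F : Finset I, SmallOn T μ (AA p (F : Set I))) (J : Set I) (hJ : #J < μ) :
    SmallOn T μ (AA p J) := by
  classical
  choose S hS hSd using h
  let up : Finset J → Finset I := fun F => F.map (Function.Embedding.subtype _)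
  refine smallOn_of_family hμ0 (ι := Σ F : Finset J, S (up F))
    (fun z q => T z.2.1 (rr p (up z.1 : Set I) q)) ?_ fun x ε hε => ?_
  · rw [mk_sigma]
    refine sum_lt_of_isRegular hμ ?_ fun F => hS _
    have h1 : #(Finset J) ≤ #(List J) :=
      mk_le_of_surjective (f := List.toFinset) List.toFinset_surjective
    exact h1.trans_lt ((mk_list_le_max J).trans_lt (max_lt hμ0 hJ))
  obtain ⟨F, hF⟩ := exists_finset (T x) (half_pos hε)
  let F' : Finset J := F.subtype (· ∈ J)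
  obtain ⟨y, hy, hxy⟩ := hSd (up F') x _ (half_pos hε)
  refine ⟨⟨F', ⟨y, hy⟩⟩, fun q hq => ?_⟩
  have h1 := hF q (rr p (up F' : Set I) q) rfl fun i hi => by
    by_cases hiJ : i ∈ J
    · refine (rr_of_mem ?_).symm
      simp [up, F', hi, hiJ]
    · rw [hq i hiJ]
      refine (rr_of_notMem ?_).symm
      simp [up, F', hiJ]
  have h2 := hxy _ (rr_mem p (up F' : Set I) q)
  have h3 := abs_sub_le (T x q) (T x (rr p (up F' : Set I) q)) (T y (rr p (up F' : Set I) q))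
  exact h3.trans_lt (by linarith)

end Prod

/-- The data chosen at one step of the recursion. -/
structure Stp (X : Type u) (Q : Type u) (W : Type u) where
  x : X
  a : Q
  b : Q
  s : W
  s' : W

/-- Spaces with many retractions. -/
theorem biorth_of_skeleton {Q : Type u} [TopologicalSpace Q] [CompactSpace Q] [T2Space Q]
    {μ : Cardinal.{u}} (hμ : μ.IsRegular) (hμ1 : ℵ₁ < μ) {W : Type u} [PartialOrder W]
    (R : W → C(Q, Q)) (h1 : ∀ s t, s ≤ t → ∀ q, R s (R t q) = R s q)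
    (h1' : ∀ s t, s ≤ t → ∀ q, R t (R s q) = R s q)
    (h2 : ∀ S : Set W, S.Nonempty → IsChain (· ≤ ·) S → #S < μ → ∃ t, (∀ s ∈ S, s ≤ t) ∧
      ∀ q q', (∀ s ∈ S, R s q = R s q') → R t q = R t q')
    (h2' : ∀ S : Set W, #S < μ → ∃ t, ∀ s ∈ S, s ≤ t)
    (h3 : ∀ g : C(Q, ℝ), ∃ s, ∀ q, g (R s q) = g q)
    (T : X →L[ℝ] C(Q, ℝ)) (hT : RangeDensityGE T μ)
    (h4 : ∀ s, SmallOn T μ (range (R s))) : HasBiorth X μ := by
  have hμ0 : ℵ₀ < μ := (aleph0_lt_aleph_one).trans hμ1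
  have hbd := fun s hs => bdd_toType hμ s hs
  have hsingW : ∀ w : W, #({w} : Set W) < μ := fun w => by
    rw [mk_singleton]
    exact (one_lt_aleph0.trans hμ0)
  choose Ψ hΨc hΨ using h4
  choose σ hσ using h3
  obtain ⟨F, hF⟩ := exists_rec (I := μ.ord.ToType) (α := Stp X Q W)
    (P := fun i g c => (∀ j (hj : j < i), (g j hj).s' ≤ c.s) ∧
      ((∀ j k (hj : j < i) (hk : k < i), j ≤ k → (g j hj).s' ≤ (g k hk).s') →
        (∃ j, j < i) → ∀ q q', (∀ j (hj : j < i), R (g j hj).s' q = R (g j hj).s' q') →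
          R c.s q = R c.s q') ∧
      c.s ≤ c.s' ∧ R c.s' c.a = c.a ∧ R c.s' c.b = c.b ∧
      (∀ j (hj : j < i), T (g j hj).x c.a = T (g j hj).x c.b) ∧
      (∀ j (hj : j < i), ∀ y ∈ Ψ (g j hj).s,
        T y (R (g j hj).s c.a) = T y (R (g j hj).s c.b)) ∧
      T c.x c.a ≠ T c.x c.b) (by
    intro i g
    have hs : ∃ s : W, (∀ j (hj : j < i), (g j hj).s' ≤ s) ∧
        ((∀ j k (hj : j < i) (hk : k < i), j ≤ k → (g j hj).s' ≤ (g k hk).s') →
          (∃ j, j < i) → ∀ q q', (∀ j (hj : j < i), R (g j hj).s' q = R (g j hj).s' q') →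
            R s q = R s q') := by
      by_cases hc : (∀ j k (hj : j < i) (hk : k < i), j ≤ k → (g j hj).s' ≤ (g k hk).s') ∧
          ∃ j, j < i
      · obtain ⟨hc1, j₀, hj₀⟩ := hc
        obtain ⟨t, ht, ht2⟩ := h2 (range fun j : Iio i => (g j j.2).s')
          ⟨_, ⟨⟨j₀, hj₀⟩, rfl⟩⟩ (by
            rintro _ ⟨j, rfl⟩ _ ⟨k, rfl⟩ _
            rcases le_total j k with h | h
            · exact Or.inl (hc1 j k j.2 k.2 h)
            · exact Or.inr (hc1 k j k.2 j.2 h)) (mk_range_le.trans_lt (iio_toType i))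
        refine ⟨t, fun j hj => ht _ ⟨⟨j, hj⟩, rfl⟩, fun _ _ q q' hq => ht2 q q' ?_⟩
        rintro _ ⟨j, rfl⟩
        exact hq j j.2
      · obtain ⟨t, ht⟩ := h2' (range fun j : Iio i => (g j j.2).s')
          (mk_range_le.trans_lt (iio_toType i))
        exact ⟨t, fun j hj => ht _ ⟨⟨j, hj⟩, rfl⟩, fun h h' => absurd ⟨h, h'⟩ hc⟩
    obtain ⟨s, hs1, hs2⟩ := hs
    have hSc : #((range fun j : Iio i => T (g j j.2).x) ∪
        ⋃ j : Iio i, (fun y => (T y).comp (R (g j j.2).s)) '' Ψ (g j j.2).s :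
          Set C(Q, ℝ)) < μ := by
      refine (mk_union_le _ _).trans_lt (add_lt_of_lt hμ.1
          (mk_range_le.trans_lt (iio_toType i)) ?_)
      exact (card_iUnion_lt_iff_forall_of_isRegular hμ (iio_toType i)).mpr fun j =>
          mk_image_le.trans_lt (hΨc _)
    obtain ⟨x, a₀, b₀, h5, h6⟩ := exists_sep_functions hμ0 hT _ hSc
    set S : Set C(Q, ℝ) := (range fun j : Iio i => T (g j j.2).x) ∪
        ⋃ j : Iio i, (fun y => (T y).comp (R (g j j.2).s)) '' Ψ (g j j.2).s with hS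
    obtain ⟨s', hs'⟩ := h2' ({s} ∪ ({σ (T x)} ∪ σ '' S)) (by
      refine (mk_union_le _ _).trans_lt (add_lt_of_lt hμ.1 (hsingW _) ?_)
      refine (mk_union_le _ _).trans_lt (add_lt_of_lt hμ.1 (hsingW _) ?_)
      exact mk_image_le.trans_lt hSc)
    have hσ' : ∀ f : C(Q, ℝ), σ f ≤ s' → ∀ q, f (R s' q) = f q := fun f hf q => by
      rw [← hσ f (R s' q), h1 _ _ hf, hσ]
    have hx : ∀ q, T x (R s' q) = T x q := hσ' _ (hs' _ (Or.inr (Or.inl rfl)))
    have hf : ∀ f ∈ S, ∀ q, f (R s' q) = f q := fun f hf =>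
      hσ' _ (hs' _ (Or.inr (Or.inr ⟨f, hf, rfl⟩)))
    have h7 : ∀ f ∈ S, f (R s' a₀) = f (R s' b₀) := fun f hfS => by
      rw [hf f hfS, hf f hfS]
      exact h5 f hfS
    refine ⟨⟨x, R s' a₀, R s' b₀, s, s'⟩, hs1, hs2, hs' _ (Or.inl rfl), h1' _ _ le_rfl _,
      h1' _ _ le_rfl _, fun j hj => ?_, fun j hj y hy => ?_, ?_⟩
    · exact h7 _ (Or.inl ⟨⟨j, hj⟩, rfl⟩)
    · exact h7 ((T y).comp (R (g j hj).s)) (Or.inr (mem_iUnion.mpr ⟨⟨j, hj⟩, y, hy, rfl⟩))
    · change T x (R s' a₀) ≠ T x (R s' b₀)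
      rw [hx, hx]
      exact h6)
  have hss : ∀ j i, j < i → (F j).s' ≤ (F i).s := fun j i hj => (hF i).1 j hj
  have hsm' : ∀ {j i}, j ≤ i → (F j).s' ≤ (F i).s' := fun {j i} hj => by
    rcases hj.eq_or_lt with h | h
    · rw [h]
    · exact (hss j i h).trans (hF i).2.2.1
  have hsm : ∀ {j i}, j ≤ i → (F j).s ≤ (F i).s := fun {j i} hj => by
    rcases hj.eq_or_lt with h | h
    · rw [h]
    · exact (hF j).2.2.1.trans (hss j i h)
  -- pressing down
  obtain ⟨β, hβ⟩ := pressing (κ := ℵ₀) le_rfl hμ (by rw [succ_aleph0]; exact hμ1)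
    (fun δ β => ∀ q q', R (F δ).s q = q → R (F δ).s q' = q' → R (F β).s q = R (F β).s q' →
      T (F δ).x q = T (F δ).x q')
    (fun {δ β β'} h5 h6 q q' hq hq' h7 => h5 q q' hq hq' (by
      rw [← h1 _ _ (hsm h6) q, ← h1 _ _ (hsm h6) q', h7])) (by
    intro δ hδ
    obtain ⟨β₀, hβ₀, -⟩ := hδ ∅ (by simp) (by simp)
    have hne : Nonempty (Iio δ) := ⟨⟨β₀, hβ₀⟩⟩
    have h5 : ∀ n : ℕ, ∃ j < δ, ∀ q q', R (F δ).s q = q → R (F δ).s q' = q' →
        R (F j).s' q = R (F j).s' q' → |T (F δ).x q - T (F δ).x q'| < 1 / ((n : ℝ) + 1) := by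
      intro n
      by_contra hcon
      push Not at hcon
      let E : Iio δ → Set (Q × Q) := fun j => {z | (R (F δ).s z.1 = z.1 ∧
        R (F δ).s z.2 = z.2) ∧ (R (F j).s' z.1 = R (F j).s' z.2 ∧
          1 / ((n : ℝ) + 1) ≤ |T (F δ).x z.1 - T (F δ).x z.2|)}
      have hEcl : ∀ j, IsClosed (E j) := fun j => by
        refine IsClosed.inter (IsClosed.inter ?_ ?_) (IsClosed.inter ?_ ?_)
        · exact isClosed_eq ((R (F δ).s).continuous.comp continuous_fst) continuous_fst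
        · exact isClosed_eq ((R (F δ).s).continuous.comp continuous_snd) continuous_snd
        · exact isClosed_eq ((R (F j).s').continuous.comp continuous_fst)
            ((R (F j).s').continuous.comp continuous_snd)
        · exact isClosed_le continuous_const (((T (F δ).x).continuous.comp
            continuous_fst).sub ((T (F δ).x).continuous.comp continuous_snd)).abs
      have hEmono : ∀ {j k : Iio δ}, j ≤ k → E k ⊆ E j := fun {j k} hjk z hz => by
        refine ⟨hz.1, ?_, hz.2.2⟩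
        have hle : (F j).s' ≤ (F k).s' := hsm' hjk
        rw [← h1 _ _ hle z.1, ← h1 _ _ hle z.2, hz.2.1]
      obtain ⟨z, hz⟩ := IsCompact.nonempty_iInter_of_directed_nonempty_isCompact_isClosed E
        (fun j k => ⟨max j k, hEmono (le_max_left _ _), hEmono (le_max_right _ _)⟩)
        (fun j => by
          obtain ⟨q, q', hq, hq', h6, h7⟩ := hcon j j.2
          exact ⟨(q, q'), ⟨hq, hq'⟩, h6, h7⟩) (fun j => (hEcl j).isCompact) hEcl
      rw [mem_iInter] at hz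
      have h6 : R (F δ).s z.1 = R (F δ).s z.2 :=
        (hF δ).2.1 (fun j k _ _ hjk => hsm' hjk) ⟨β₀, hβ₀⟩ z.1 z.2 fun j hj =>
          (hz ⟨j, hj⟩).2.1
      have h7 := hz ⟨β₀, hβ₀⟩
      rw [h7.1.1, h7.1.2] at h6
      have h8 := h7.2.2
      rw [h6, sub_self, abs_zero] at h8
      exact absurd h8 (not_le.mpr (by positivity))
    choose B hB hB2 using h5
    obtain ⟨β, hβ, h6⟩ := hδ (range B)
      (mk_le_aleph0_iff.mpr (countable_range B).to_subtype) (by
        rintro _ ⟨n, rfl⟩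
        exact hB n)
    refine ⟨β, hβ, fun q q' hq hq' h7 => ?_⟩
    by_contra hne
    obtain ⟨n, hn⟩ := exists_nat_one_div_lt (abs_pos.mpr (sub_ne_zero.mpr hne))
    refine absurd (hB2 n q q' hq hq' ?_) (not_lt.mpr hn.le)
    have hle : (F (B n)).s' ≤ (F β).s := hss _ _ (h6 _ ⟨n, rfl⟩)
    rw [← h1 _ _ hle q, ← h1 _ _ hle q', h7])
  have hsing : ∀ j : μ.ord.ToType, #({j} : Set μ.ord.ToType) < μ := fun j => by
    rw [mk_singleton]
    exact (one_lt_aleph0.trans_le hμ.1)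
  obtain ⟨α, hα⟩ := exists_rec (I := μ.ord.ToType)
    (P := fun i g c => (β < c ∧ ∀ q q', R (F c).s q = q → R (F c).s q' = q' →
        R (F β).s q = R (F β).s q' → T (F c).x q = T (F c).x q') ∧
      ∀ j (hj : j < i), g j hj < c) (by
      intro i g
      obtain ⟨c, hc⟩ := hbd ({β} ∪ range (fun j : Iio i => g j j.2)) (by
        exact (mk_union_le _ _).trans_lt (add_lt_of_lt hμ.1 (hsing β)
          (mk_range_le.trans_lt (iio_toType i))))
      obtain ⟨δ, hδ, h2⟩ := hβ c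
      exact ⟨δ, ⟨(hc β (Or.inl rfl)).trans hδ, h2⟩, fun j hj =>
        (hc _ (Or.inr ⟨⟨j, hj⟩, rfl⟩)).trans hδ⟩)
  refine biorth_of_pairs T (fun i => (F (α i)).x) (fun i => (F (α i)).a)
    (fun i => (F (α i)).b) (fun i => (hF (α i)).2.2.2.2.2.2.2) fun i j hij => ?_
  rcases lt_or_gt_of_ne hij with hij | hij
  · exact (hF (α j)).2.2.2.2.2.1 (α i) ((hα j).2 i hij)
  · have hji : α j < α i := (hα i).2 j hij
    have hJ' : (F (α j)).s' ≤ (F (α i)).s := hss _ _ hji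
    have hβJ : (F β).s ≤ (F (α i)).s := hsm ((hα i).1.1).le
    have key : ∀ q, R (F (α j)).s' q = q → T (F (α i)).x q =
        T (F (α i)).x (R (F β).s q) := by
      intro q hq
      refine (hα i).1.2 q (R (F β).s q) ?_ (h1' _ _ hβJ q) (h1 _ _ le_rfl q).symm
      rw [← hq, h1' _ _ hJ']
    rw [key _ (hF (α j)).2.2.2.1, key _ (hF (α j)).2.2.2.2.1]
    by_contra hne
    set u := R (F β).s (F (α j)).a with hu
    set v := R (F β).s (F (α j)).b with hv
    have hpos : 0 < |T (F (α i)).x u - T (F (α i)).x v| := abs_pos.mpr (sub_ne_zero.mpr hne)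
    obtain ⟨y, hy, hxy⟩ := hΨ (F β).s (F (α i)).x _ (half_pos hpos)
    have e1 := hxy u ⟨_, rfl⟩
    have e2 := hxy v ⟨_, rfl⟩
    have e3 : T y u = T y v := (hF (α j)).2.2.2.2.2.2.1 β (hα j).1.1 y hy
    rw [e3] at e1
    have e4 := abs_sub_le (T (F (α i)).x u) (T y v) (T (F (α i)).x v)
    rw [abs_sub_comm (T y v)] at e4
    linarith

section Beta

variable {I : Type u} {Kf : I → Type u} [∀ i, TopologicalSpace (Kf i)]
  {L : Type u} [TopologicalSpace L]
  [∀ i, CompactSpace (Kf i)] [∀ i, T2Space (Kf i)] [CompactSpace L] [T2Space L]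

theorem biorth_of_small_lt {μ : Cardinal.{u}} (hμ : μ.IsRegular) (hμ1 : ℵ₁ < μ)
    (p : ∀ i, Kf i) (T : X →L[ℝ] C((∀ i, Kf i) × L, ℝ)) (hT : RangeDensityGE T μ)
    (h : ∀ J : Set I, #J < μ → SmallOn T μ (AA p J)) : HasBiorth X μ := by
  have hμ0 : ℵ₀ < μ := (aleph0_lt_aleph_one).trans hμ1
  have hU : ∀ S : Set {J : Set I // #J < μ}, #S < μ → #(⋃ s : S, s.1.1 : Set I) < μ :=
    fun S hS => (card_iUnion_lt_iff_forall_of_isRegular hμ hS).mpr fun s => s.1.2
  refine biorth_of_skeleton hμ hμ1 (W := {J : Set I // #J < μ}) (fun J => rr p J.1) ?_ ?_ ?_ ?_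
    ?_ T hT ?_
  · intro s t hst q
    refine Prod.ext (funext fun i => ?_) rfl
    by_cases hi : i ∈ s.1
    · rw [rr_of_mem hi, rr_of_mem hi, rr_of_mem (hst hi)]
    · rw [rr_of_notMem hi, rr_of_notMem hi]
  · intro s t hst q
    refine Prod.ext (funext fun i => ?_) rfl
    by_cases hi : i ∈ t.1
    · rw [rr_of_mem hi]
    · rw [rr_of_notMem hi, rr_of_notMem fun h => hi (hst h)]
  · intro S hne _ hS
    refine ⟨⟨_, hU S hS⟩, fun s hs => subset_iUnion (fun s : S => s.1.1) ⟨s, hs⟩,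
      fun q q' hq => ?_⟩
    refine Prod.ext (funext fun i => ?_) ?_
    · by_cases hi : i ∈ (⋃ s : S, s.1.1 : Set I)
      · rw [rr_of_mem hi, rr_of_mem hi]
        obtain ⟨s, hs⟩ := mem_iUnion.mp hi
        have h5 : (rr p s.1.1 q).1 i = (rr p s.1.1 q').1 i :=
          congrArg (fun z => z.1 i) (hq s.1 s.2)
        rwa [rr_of_mem hs, rr_of_mem hs] at h5
      · rw [rr_of_notMem hi, rr_of_notMem hi]
    · obtain ⟨s, hs⟩ := hne
      exact congrArg (fun z => z.2) (hq s hs)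
  · intro S hS
    exact ⟨⟨_, hU S hS⟩, fun s hs => subset_iUnion (fun s : S => s.1.1) ⟨s, hs⟩⟩
  · intro g
    obtain ⟨C, hC, h5⟩ := exists_supp g
    exact ⟨⟨C, (mk_le_aleph0_iff.mpr hC.to_subtype).trans_lt hμ0⟩, fun q =>
      h5 _ _ rfl fun i hi => rr_of_mem hi⟩
  · intro s
    obtain ⟨S, hS, h5⟩ := h s.1 s.2
    refine ⟨S, hS, fun x ε hε => ?_⟩
    obtain ⟨y, hy, h6⟩ := h5 x ε hε
    refine ⟨y, hy, ?_⟩
    rintro _ ⟨q, rfl⟩
    exact h6 _ (rr_mem p s.1 q)

theorem DD_prod {μ : Cardinal.{u}} (hμ : μ.IsRegular) (hμ1 : ℵ₁ < μ) (hno : ¬ HasBiorth X μ)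
    (hD : ∀ i, DD X μ (Kf i)) : DD X μ (∀ i, Kf i) := by
  intro L _ _ _ hL T
  have hμ0 : ℵ₀ < μ := (aleph0_lt_aleph_one).trans hμ1
  by_contra hT
  by_cases hne : Nonempty (∀ i, Kf i)
  · obtain ⟨p⟩ := hne
    exact hno (biorth_of_small_lt hμ hμ1 p T (rangeDensity_of_not hT)
      (small_lt hμ hμ0 p fun F => small_fin hD p F L hL T))
  · refine hT ⟨{0}, ?_, fun x ε hε => ⟨0, rfl, fun q _ => (hne ⟨q.1⟩).elim⟩⟩
    rw [mk_singleton]
    exact one_lt_aleph0.trans hμ0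

end Beta

/-- Uniform supports. -/
theorem exists_uniform {K L : Type u} [TopologicalSpace K] [CompactSpace K]
    [TopologicalSpace L] [CompactSpace L] {W : Type u} [PartialOrder W]
    (r : W → C(K, K)) (h1 : ∀ s t, s ≤ t → ∀ q, r s (r t q) = r s q)
    (h2' : ∀ S : Set W, S.Countable → ∃ t, ∀ s ∈ S, s ≤ t)
    (h3 : ∀ g : C(K, ℝ), ∃ s, ∀ q, g (r s q) = g q) (g : C(K × L, ℝ)) :
    ∃ s, ∀ q l, g (r s q, l) = g (q, l) := by
  let G : C(L, C(K, ℝ)) := ContinuousMap.curry (g.comp ContinuousMap.prodSwap)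
  have hG : ∀ l k, G l k = g (k, l) := fun l k => rfl
  obtain ⟨c, hc, hc2⟩ := (isCompact_range G.continuous).isSeparable
  choose σ hσ using h3
  obtain ⟨s, hs⟩ := h2' (σ '' c) (hc.image σ)
  refine ⟨s, fun q l => ?_⟩
  have hcl : IsClosed {f : C(K, ℝ) | f (r s q) = f q} :=
    isClosed_eq (continuous_eval_const _) (continuous_eval_const _)
  have h5 : c ⊆ {f : C(K, ℝ) | f (r s q) = f q} := fun f hf => by
    have h6 := hs _ ⟨f, hf, rfl⟩
    change f (r s q) = f q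
    rw [← hσ f (r s q), h1 _ _ h6, hσ]
  have h6 := closure_minimal h5 hcl (hc2 ⟨l, rfl⟩)
  exact h6

theorem DD_skeleton {K : Type u} [TopologicalSpace K] [CompactSpace K] [T2Space K]
    {μ : Cardinal.{u}} (hμ : μ.IsRegular) (hμ1 : ℵ₁ < μ) (hno : ¬ HasBiorth X μ)
    {W : Type u} [PartialOrder W]
    (r : W → C(K, K)) (h1 : ∀ s t, s ≤ t → ∀ q, r s (r t q) = r s q)
    (h1' : ∀ s t, s ≤ t → ∀ q, r t (r s q) = r s q)
    (h2 : ∀ S : Set W, S.Nonempty → IsChain (· ≤ ·) S → #S < μ → ∃ t, (∀ s ∈ S, s ≤ t) ∧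
      ∀ q q', (∀ s ∈ S, r s q = r s q') → r t q = r t q')
    (h2' : ∀ S : Set W, #S < μ → ∃ t, ∀ s ∈ S, s ≤ t)
    (h3 : ∀ g : C(K, ℝ), ∃ s, ∀ q, g (r s q) = g q)
    [∀ s, CompactSpace (range (r s))] (h4 : ∀ s, DD X μ (range (r s))) : DD X μ K := by
  intro L _ _ _ hL T
  have hμ0 : ℵ₀ < μ := (aleph0_lt_aleph_one).trans hμ1
  by_contra hT
  have hcont : ∀ s, Continuous fun q : K × L => (r s q.1, q.2) := fun s =>
    ((r s).continuous.comp continuous_fst).prodMk continuous_snd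
  refine hno (biorth_of_skeleton hμ hμ1 (W := W) (fun s => ⟨_, hcont s⟩) ?_ ?_ ?_ h2' ?_ T
    (rangeDensity_of_not hT) ?_)
  · intro s t hst q
    exact Prod.ext (h1 s t hst q.1) rfl
  · intro s t hst q
    exact Prod.ext (h1' s t hst q.1) rfl
  · intro S hne hch hS
    obtain ⟨t, ht, h5⟩ := h2 S hne hch hS
    refine ⟨t, ht, fun q q' hq => ?_⟩
    have h6 : ∀ s ∈ S, (r s q.1, q.2) = (r s q'.1, q'.2) := hq
    have h7 : r t q.1 = r t q'.1 := h5 _ _ fun s hs => (Prod.mk.inj (h6 s hs)).1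
    obtain ⟨s, hs⟩ := hne
    have h8 : q.2 = q'.2 := (Prod.mk.inj (h6 s hs)).2
    exact Prod.ext h7 h8
  · intro g
    obtain ⟨s, hs⟩ := exists_uniform r h1 (fun S hS =>
      h2' S ((mk_le_aleph0_iff.mpr hS.to_subtype).trans_lt hμ0)) h3 g
    exact ⟨s, fun q => hs q.1 q.2⟩
  · intro s
    have hcont2 : Continuous fun q : range (r s) × L => (q.1.1, q.2) :=
      (continuous_subtype_val.comp continuous_fst).prodMk continuous_snd
    refine smallOn_of_pull ⟨fun q : range (r s) × L => (q.1.1, q.2), hcont2⟩ (h4 s L hL _) ?_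
    rintro _ ⟨q, rfl⟩
    exact ⟨(⟨r s q.1, q.1, rfl⟩, q.2), trivial, rfl⟩

end Pool.Agent.Helper67.Supp
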