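import Pool.Agent.Helper67.Supp.Tame

/-!
# Reduction to separable compact spaces
-/

set_option autoImplicit false

open Set Cardinal Pool.Agent.Helper50.Supp

noncomputable section

namespace Pool.Agent.Helper67.Supp

universe u

variable {X : Type u} [NormedAddCommGroup X] [NormedSpace ℝ X]
  {K : Type u} [TopologicalSpace K] [CompactSpace K] [T2Space K]

theorem exists_pairs_tame {κ : Cardinal.{u}} (hκ : ℵ₁ ≤ κ) (T : X →L[ℝ] C(K, ℝ)) (E : Set X)
    (hE : ∀ s : Set X, T '' E ⊆ closure (T '' s) → κ < #s)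
    (hS : ¬ HasSupportSet X) (Y : Set X) (hY : #Y ≤ κ) :
    ∃ a b : ℕ → K, (∀ y ∈ Y, ∀ n, T y (a n) = T y (b n)) ∧
      ¬ Tame ℵ₀ (Order.succ κ) (closure (range a ∪ range b)) ∧
      ∀ s : Set X, #s ≤ κ → ∃ x ∈ E, ∃ c : ℝ, 0 < c ∧ ∀ y ∈ s, ∃ n,
        c < T x (a n) - T x (b n) ∧ T y (a n) - T y (b n) ≤ 0 := by
  have hκ0 : ℵ₀ ≤ κ := (aleph0_le_aleph 1).trans hκ
  by_contra hcon
  refine hS (hasSupportSet_of_cover T hκ E (exists_notMem_closure T hκ0 E hE) Y hY
    fun F hF => ?_)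
  by_contra h1
  push Not at h1
  refine hcon ⟨fun n => (F n).1, fun n => (F n).2, hF, fun hL => hS ?_, h1⟩
  set L : Set K := closure (range (fun n => (F n).1) ∪ range fun n => (F n).2) with hLdef
  have hcpt : CompactSpace L := isCompact_iff_compactSpace.mp isClosed_closure.isCompact
  have hmem : ∀ n, (F n).1 ∈ L ∧ (F n).2 ∈ L := fun n =>
    ⟨subset_closure (Or.inl ⟨n, rfl⟩), subset_closure (Or.inr ⟨n, rfl⟩)⟩
  have hR : RangeDensityGE (restr T L) (Order.succ κ) := by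
    intro s hs
    by_contra hlt
    obtain ⟨x, -, c, hc, hx⟩ := h1 s (Order.lt_succ_iff.mp (not_le.mp hlt))
    obtain ⟨_, ⟨y, hy, rfl⟩, hxy⟩ := Metric.mem_closure_iff.mp (hs ⟨x, rfl⟩) (c / 2)
      (half_pos hc)
    obtain ⟨n, h3, h4⟩ := hx y hy
    have h5 := (ContinuousMap.dist_apply_le_dist (f := restr T L x) (g := restr T L y)
      ⟨(F n).1, (hmem n).1⟩).trans_lt hxy
    have h6 := (ContinuousMap.dist_apply_le_dist (f := restr T L x) (g := restr T L y)
      ⟨(F n).2, (hmem n).2⟩).trans_lt hxy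
    rw [restr_apply, restr_apply, Real.dist_eq, abs_lt] at h5 h6
    simp only at h5 h6
    linarith [h5.2, h6.1]
  obtain ⟨z, f, h7, h8⟩ := biorth_of_tame (K := L) le_rfl (isRegular_succ hκ0)
    (by rw [succ_aleph0]; exact hκ.trans_lt (Order.lt_succ κ)) hL (restr T L) hR
  refine hasSupportSet_of_biorth ?_ z f h7 h8
  rw [mk_toType, card_ord]
  exact hκ.trans (Order.le_succ κ)

end Pool.Agent.Helper67.Supp
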