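import Pool.Agent.Helper67.Supp.Prod

/-!
# The class of tame compact spaces
-/

set_option autoImplicit false

open Set Cardinal Pool.Agent.Helper50.Supp

noncomputable section

namespace Pool.Agent.Helper67.Supp

universe u

/-- The least class of compact Hausdorff spaces which contains the spaces whose points are
separated by fewer than `μ` continuous real functions and is closed under total spaces of
continuous maps to compact Hausdorff spaces of hereditary Lindelöf degree at most `κ` with all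
fibres in the class, under arbitrary products, under continuous Hausdorff images, and under
retractional skeletons with ranges in the class. -/
inductive Tame (κ μ : Cardinal.{u}) : (K : Type u) → [TopologicalSpace K] → Prop
  | small (K : Type u) [TopologicalSpace K] [CompactSpace K] [T2Space K] (D : Set C(K, ℝ))
      (hD : #D < μ) (hsep : ∀ a b, (∀ f ∈ D, f a = f b) → a = b) : Tame κ μ K
  | fib (K M : Type u) [TopologicalSpace K] [CompactSpace K] [T2Space K] [TopologicalSpace M]
      [CompactSpace M] [T2Space M]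
      (hM : ∀ (ι : Type u) (U : ι → Set M), (∀ i, IsOpen (U i)) →
        ∃ t : Set ι, #t ≤ κ ∧ ⋃ i ∈ t, U i = ⋃ i, U i)
      (π : C(K, M)) (h : ∀ m, Tame κ μ (π ⁻¹' {m} : Set K)) : Tame κ μ K
  | prod (I : Type u) (K : I → Type u) [∀ i, TopologicalSpace (K i)]
      (h : ∀ i, Tame κ μ (K i)) : Tame κ μ (∀ i, K i)
  | image (K K' : Type u) [TopologicalSpace K] [TopologicalSpace K'] [T2Space K']
      (f : C(K, K')) (hf : Function.Surjective f) (h : Tame κ μ K) : Tame κ μ K'
  | skeleton (K : Type u) [TopologicalSpace K] [CompactSpace K] [T2Space K] (W : Type u)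
      [PartialOrder W] (r : W → C(K, K))
      (h1 : ∀ s t, s ≤ t → ∀ q, r s (r t q) = r s q ∧ r t (r s q) = r s q)
      (h2 : ∀ S : Set W, #S < μ → ∃ t, ∀ s ∈ S, s ≤ t)
      (h3 : ∀ S : Set W, S.Nonempty → IsChain (· ≤ ·) S → #S < μ → ∃ t, (∀ s ∈ S, s ≤ t) ∧
        ∀ q q', (∀ s ∈ S, r s q = r s q') → r t q = r t q')
      (h4 : ∀ g : C(K, ℝ), ∃ s, ∀ q, g (r s q) = g q)
      (h : ∀ s, Tame κ μ (range (r s))) : Tame κ μ K

theorem Tame.compact {κ μ : Cardinal.{u}} {K : Type u} [t : TopologicalSpace K]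
    (h : Tame κ μ K) : CompactSpace K ∧ T2Space K := by
  induction h with
  | small K D hD hsep => exact ⟨inferInstance, inferInstance⟩
  | fib K M hM π h ih => exact ⟨inferInstance, inferInstance⟩
  | prod I K h ih =>
    have h1 : ∀ i, CompactSpace (K i) := fun i => (ih i).1
    have h2 : ∀ i, T2Space (K i) := fun i => (ih i).2
    exact ⟨inferInstance, inferInstance⟩
  | image K K' f hf h ih =>
    have h1 : CompactSpace K := ih.1
    exact ⟨hf.compactSpace f.continuous, inferInstance⟩
  | skeleton K W r h1 h2 h3 h4 h ih => exact ⟨inferInstance, inferInstance⟩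

theorem Tame.dd {X : Type u} [NormedAddCommGroup X] [NormedSpace ℝ X] {κ μ : Cardinal.{u}}
    (hκ : ℵ₀ ≤ κ) (hμ : μ.IsRegular) (hκμ : Order.succ κ < μ) (hno : ¬ HasBiorth X μ)
    {K : Type u} [t : TopologicalSpace K] (h : Tame κ μ K) :
    ∀ _ : CompactSpace K, DD X μ K := by
  have hμ0 : ℵ₀ < μ := (hκ.trans_lt (Order.lt_succ κ)).trans hκμ
  have hμ1 : ℵ₁ < μ := by
    rw [← succ_aleph0]
    exact (Order.succ_le_succ hκ).trans_lt hκμ
  induction h with
  | small K D hD hsep => exact fun _ => DD_small hμ hμ0 D hD hsep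
  | fib K M hM π h ih =>
    intro _
    have h1 : ∀ m, CompactSpace (π ⁻¹' {m} : Set K) := fun m => (h m).compact.1
    exact DD_fib hκ hμ hκμ hM hno π fun m => ih m (h1 m)
  | prod I K h ih =>
    intro _
    have h1 : ∀ i, CompactSpace (K i) := fun i => (h i).compact.1
    have h2 : ∀ i, T2Space (K i) := fun i => (h i).compact.2
    exact DD_prod hμ hμ1 hno fun i => ih i (h1 i)
  | image K K' f hf h ih =>
    intro _
    have h1 : CompactSpace K := h.compact.1
    exact DD_image f hf (ih h1)
  | skeleton K W r h1 h2 h3 h4 h ih =>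
    intro _
    have h5 : ∀ s, CompactSpace (range (r s)) := fun s => (h s).compact.1
    exact DD_skeleton hμ hμ1 hno r (fun s t hst q => (h1 s t hst q).1)
      (fun s t hst q => (h1 s t hst q).2) h3 h2 h4 fun s => ih s (h5 s)

theorem biorth_of_tame {X : Type u} [NormedAddCommGroup X] [NormedSpace ℝ X]
    {κ μ : Cardinal.{u}} (hκ : ℵ₀ ≤ κ) (hμ : μ.IsRegular) (hκμ : Order.succ κ < μ)
    {K : Type u} [TopologicalSpace K] [CompactSpace K] (hK : Tame κ μ K)
    (T : X →L[ℝ] C(K, ℝ)) (hT : RangeDensityGE T μ) : HasBiorth X μ := by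
  by_contra hno
  have hμ0 : ℵ₀ < μ := (hκ.trans_lt (Order.lt_succ κ)).trans hκμ
  obtain ⟨s, hs, h1⟩ := CC_of_DD hμ0 (hK.dd hκ hμ hκμ hno inferInstance) T
  refine absurd (hT s ?_) (not_le.mpr hs)
  rintro _ ⟨x, rfl⟩
  rw [Metric.mem_closure_iff]
  intro ε hε
  obtain ⟨y, hy, h2⟩ := h1 x (ε / 2) (half_pos hε)
  refine ⟨T y, ⟨y, hy, rfl⟩, lt_of_le_of_lt ?_ (half_lt_self hε)⟩
  exact (ContinuousMap.dist_le (half_pos hε).le).mpr fun k => (h2 k trivial).le

end Pool.Agent.Helper67.Supp
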